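import Pool.Agent.T2H37.PZ.Stm

/-!
# Perazzo algebras: package DA (duality)
-/

set_option autoImplicit false

namespace Pool.Agent.T2H37.PZ

open MvPolynomial

private theorem act_swap {K : Type} [Field K] {σ : Type} (g h F : MvPolynomial σ K) :
    act g (act h F) = act h (act g F) := by
  rw [← act_mul, ← act_mul, mul_comm]

private theorem act_sum {K : Type} [Field K] {σ : Type} {n : ℕ} (w : MvPolynomial σ K)
    (g p : Fin (n + 1) → MvPolynomial σ K) :
    act w (∑ j, act (g j) (p j)) = ∑ j, act (g j) (act w (p j)) := by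
  rw [map_sum]
  exact Finset.sum_congr rfl fun j _ => act_swap _ _ _

private theorem sum_hom (h1 : S_HOM) {K : Type} [Field K] [CharZero K] {n m e c : ℕ}
    {p g : Fin (n + 1) → MvPolynomial (Fin m) K} (hp : ∀ j, (p j).IsHomogeneous (e + 1 + c))
    (hg : ∀ j, (g j).IsHomogeneous c) : (∑ j, act (g j) (p j)).IsHomogeneous (e + 1) := by
  refine IsHomogeneous.sum _ _ _ fun j _ => ?_
  have := (h1 K (Fin m) (g j) (p j) c (e + 1 + c) (hg j) (hp j)).1 (by omega)
  rwa [show e + 1 + c - c = e + 1 by omega] at this

theorem pDA (h1 : S_HOM) (h2 : S_NON) (h3 : S_REP) : S_DA := by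
  intro K _ _ n m e c p l hp hl
  constructor
  · intro H g hg h0
    refine h2 K (Fin m) _ (e + 1) (sum_hom h1 hp hg) fun w hw => ?_
    obtain ⟨f, -, hf⟩ := H w hw
    have e1 : act w (∑ j, act (g j) (p j)) = act (w - l * f) (∑ j, act (g j) (p j)) +
        act f (act l (∑ j, act (g j) (p j))) := by
      rw [← act_mul, mul_comm f l, map_sub, LinearMap.sub_apply, sub_add_cancel]
    rw [e1, h0, map_zero, add_zero, act_sum]
    refine Finset.sum_eq_zero fun j _ => ?_
    rw [hf j, map_zero]
  · intro H w hw
    classical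
    -- the space `M`
    let Φ : (Fin (n + 1) → homogeneousSubmodule (Fin m) K c) →ₗ[K] MvPolynomial (Fin m) K :=
      { toFun := fun g => ∑ j, act (g j : MvPolynomial (Fin m) K) (p j)
        map_add' := by
          intro a b
          simp only [Pi.add_apply, Submodule.coe_add, map_add, LinearMap.add_apply,
            Finset.sum_add_distrib]
        map_smul' := by
          intro r a
          simp only [Pi.smul_apply, Submodule.coe_smul, map_smul, LinearMap.smul_apply,
            Finset.smul_sum, RingHom.id_apply] }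
    let M : Submodule K (MvPolynomial (Fin m) K) := LinearMap.range Φ
    have hM : ∀ x ∈ M, ∃ g : Fin (n + 1) → MvPolynomial (Fin m) K,
        (∀ j, (g j).IsHomogeneous c) ∧ x = ∑ j, act (g j) (p j) := by
      rintro x ⟨g, rfl⟩
      exact ⟨fun j => g j, fun j => (mem_homogeneousSubmodule _ _).1 (g j).2, rfl⟩
    have hM' : ∀ (j : Fin (n + 1)) (g : MvPolynomial (Fin m) K), g.IsHomogeneous c →
        act g (p j) ∈ M := by
      intro j g hg
      refine ⟨Pi.single j ⟨g, (mem_homogeneousSubmodule _ _).2 hg⟩, ?_⟩
      show ∑ i, act ((Pi.single j (⟨g, (mem_homogeneousSubmodule _ _).2 hg⟩ :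
        homogeneousSubmodule (Fin m) K c) : Fin (n + 1) → homogeneousSubmodule (Fin m) K c) i :
          MvPolynomial (Fin m) K) (p i) = _
      rw [Finset.sum_eq_single j]
      · rw [Pi.single_eq_same]
      · intro i _ hij
        rw [Pi.single_eq_of_ne hij]
        simp
      · intro h
        exact absurd (Finset.mem_univ j) h
    let T : M →ₗ[K] MvPolynomial (Fin m) K := (act l).comp M.subtype
    have hT : LinearMap.ker T = ⊥ := by
      rw [LinearMap.ker_eq_bot']
      rintro ⟨x, hx⟩ h0
      obtain ⟨g, hg, rfl⟩ := hM x hx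
      have : act l (∑ j, act (g j) (p j)) = 0 := h0
      apply Subtype.ext
      exact H g hg this
    obtain ⟨S, hS⟩ := T.exists_leftInverse_of_injective hT
    let ψ : M →ₗ[K] K := (lcoeff K 0).comp ((act w).comp M.subtype)
    obtain ⟨f, hf, hf'⟩ := h3 K (Fin m) (ψ.comp S) e
    have key : ∀ x ∈ M, act (w - l * f) x = 0 := by
      intro x hx
      obtain ⟨g, hg, hxg⟩ := hM x hx
      have hxh : x.IsHomogeneous (e + 1) := by
        rw [hxg]
        exact sum_hom h1 hp hg
      have h4 : (act l x).IsHomogeneous e := by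
        have := (h1 K (Fin m) l x 1 (e + 1) hl hxh).1 (by omega)
        rwa [show e + 1 - 1 = e by omega] at this
      have h5 := hf' _ h4
      have h6 : S (act l x) = ⟨x, hx⟩ := by
        have := congrArg (fun L => L ⟨x, hx⟩) hS
        exact this
      have h7 : (ψ.comp S) (act l x) = coeff 0 (act w x) := by
        rw [LinearMap.comp_apply, h6]
        rfl
      have h8 : (act w x).IsHomogeneous 0 := by
        have := (h1 K (Fin m) w x (e + 1) (e + 1) hw hxh).1 le_rfl
        rwa [Nat.sub_self] at this
      have h9 : act w x = C (coeff 0 (act w x)) := by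
        refine totalDegree_eq_zero_iff_eq_C.1 ?_
        exact Nat.le_zero.1 h8.totalDegree_le
      rw [map_sub, LinearMap.sub_apply, mul_comm l f, act_mul, h5, h7, ← h9, sub_self]
    have hlf : (w - l * f).IsHomogeneous (e + 1) := by
      refine hw.sub ?_
      have := hl.mul hf
      rwa [add_comm] at this
    refine ⟨f, hf, fun j => ?_⟩
    refine h2 K (Fin m) _ c ?_ fun g hg => ?_
    · have := (h1 K (Fin m) (w - l * f) (p j) (e + 1) (e + 1 + c) hlf (hp j)).1 (by omega)
      rwa [show e + 1 + c - (e + 1) = c by omega] at this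
    · rw [act_swap]
      exact key _ (hM' j g hg)

end Pool.Agent.T2H37.PZ
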