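import Pool.Agent.T2H37.PZ.Stm

set_option autoImplicit false

namespace Pool.Agent.T2H37.PZ

open MvPolynomial

private theorem act_comm3 {K : Type} [Field K] {σ : Type} (a b c F : MvPolynomial σ K) :
    act a (act b (act c F)) = act c (act (b * a) F) := by
  rw [← act_mul, ← act_mul, ← act_mul]
  congr 2
  ring

/-- the linear map of the sums -/
private noncomputable def sumMap {K : Type} [Field K] {n m : ℕ} (c : ℕ)
    (p : Fin (n + 1) → MvPolynomial (Fin m) K) (l : MvPolynomial (Fin m) K) :
    (Fin (n + 1) → homogeneousSubmodule (Fin m) K c) →ₗ[K] MvPolynomial (Fin m) K :=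
  (act l : Module.End K (MvPolynomial (Fin m) K)) ∘ₗ
    ∑ j, (LinearMap.applyₗ (p j)) ∘ₗ (act (K := K) (σ := Fin m)).toLinearMap ∘ₗ
      (homogeneousSubmodule (Fin m) K c).subtype ∘ₗ LinearMap.proj j

private theorem sumMap_apply {K : Type} [Field K] {n m : ℕ} (c : ℕ)
    (p : Fin (n + 1) → MvPolynomial (Fin m) K) (l : MvPolynomial (Fin m) K)
    (g : Fin (n + 1) → homogeneousSubmodule (Fin m) K c) :
    sumMap c p l g = act l (∑ j, act (g j : MvPolynomial (Fin m) K) (p j)) := by
  unfold sumMap
  rw [LinearMap.comp_apply, LinearMap.sum_apply]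
  rfl

theorem pDB (hHOM : S_HOM) (hNON : S_NON) (hREP : S_REP) : S_DB := by
  intro K _ _ n m e c p l v hp hl hv
  constructor
  · rintro ⟨g, -, rfl⟩ g' hg' h
    rw [map_sum, map_sum]
    apply Finset.sum_eq_zero
    intro j _
    rw [act_comm3, h j, map_zero]
  · intro h
    by_contra hne
    have hvN : v ∉ LinearMap.range (sumMap c p l) := by
      rintro ⟨g, hg⟩
      apply hne
      refine ⟨fun j => (g j : MvPolynomial (Fin m) K), fun j => (g j).2, ?_⟩
      rw [← hg, sumMap_apply]
    obtain ⟨φ, hφv, hφN⟩ := Submodule.exists_dual_map_eq_bot_of_notMem hvN inferInstance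
    have hφ : ∀ w ∈ LinearMap.range (sumMap c p l), φ w = 0 := by
      intro w hw
      have : φ w ∈ (LinearMap.range (sumMap c p l)).map φ := Submodule.mem_map_of_mem hw
      rw [hφN] at this
      simpa using this
    obtain ⟨g, hg, hgv⟩ := hREP K (Fin m) φ e
    have hlg : (l * g).IsHomogeneous (1 + e) := hl.mul hg
    have hker : ∀ j, act (l * g) (p j) = 0 := by
      intro j
      have h1 : (act (l * g) (p j)).IsHomogeneous (e + 1 + c - (1 + e)) :=
        (hHOM K (Fin m) (l * g) (p j) (1 + e) (e + 1 + c) hlg (hp j)).1 (by omega)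
      have h2 : e + 1 + c - (1 + e) = c := by omega
      rw [h2] at h1
      apply hNON K (Fin m) _ c h1
      intro g' hg'
      have h3 : act g' (act (l * g) (p j)) = act g (act l (act g' (p j))) := by
        rw [act_comm3]
      rw [h3]
      have h4 : (act g' (p j)).IsHomogeneous (e + 1 + c - c) :=
        (hHOM K (Fin m) g' (p j) c (e + 1 + c) hg' (hp j)).1 (by omega)
      have h5 : (act l (act g' (p j))).IsHomogeneous (e + 1 + c - c - 1) :=
        (hHOM K (Fin m) l _ 1 (e + 1 + c - c) hl h4).1 (by omega)
      have h6 : e + 1 + c - c - 1 = e := by omega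
      rw [h6] at h5
      rw [hgv _ h5]
      have h7 : act l (act g' (p j)) ∈ LinearMap.range (sumMap c p l) := by
        classical
        refine ⟨Pi.single j ⟨g', hg'⟩, ?_⟩
        rw [sumMap_apply, Finset.sum_eq_single j]
        · rw [Pi.single_eq_same]
        · intro i _ hij
          rw [Pi.single_eq_of_ne hij]
          simp
        · intro hj; exact absurd (Finset.mem_univ j) hj
      rw [hφ _ h7, map_zero]
    have h8 := h g hg hker
    rw [hgv v hv] at h8
    apply hφv
    have := congrArg (MvPolynomial.coeff 0) h8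
    simpa using this

end Pool.Agent.T2H37.PZ
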