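import Pool.Agent.T2H37.PZ.Stm

set_option autoImplicit false

namespace Pool.Agent.T2H37.PZ

open MvPolynomial

namespace PkgHOM

variable {K : Type} [Field K] {σ : Type}

theorem coeff_pd (i : σ) (F : MvPolynomial σ K) (t : σ →₀ ℕ) :
    coeff t (pderiv i F) = ((t i + 1 : ℕ) : K) * coeff (t + Finsupp.single i 1) F := by
  classical
  induction F using MvPolynomial.induction_on' with
  | monomial s a =>
    rw [pderiv_monomial, coeff_monomial, coeff_monomial]
    by_cases h : s = t + Finsupp.single i 1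
    · have h1 : s - Finsupp.single i 1 = t := by rw [h, add_tsub_cancel_right]
      have h2 : s i = t i + 1 := by rw [h]; simp
      rw [if_pos h1, if_pos h, h2, mul_comm]
    · rw [if_neg h, mul_zero]
      by_cases h1 : s - Finsupp.single i 1 = t
      · rw [if_pos h1]
        by_cases h2 : s i = 0
        · rw [h2, Nat.cast_zero, mul_zero]
        · exfalso
          apply h
          rw [← h1]
          have h3 : Finsupp.single i 1 ≤ s := by
            rw [Finsupp.single_le_iff]
            omega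
          exact (tsub_add_cancel_of_le h3).symm
      · rw [if_neg h1]
  | add p q hp hq => rw [map_add, coeff_add, coeff_add, hp, hq, mul_add]

theorem coeff_act_monomial (s : σ →₀ ℕ) : ∀ t : σ →₀ ℕ, ∃ D : ℕ, D ≠ 0 ∧ ∀ F : MvPolynomial σ K,
    coeff t (act (monomial s 1) F) = (D : K) * coeff (t + s) F := by
  classical
  have hadd : ∀ f g : σ →₀ ℕ,
      (∀ t : σ →₀ ℕ, ∃ D : ℕ, D ≠ 0 ∧ ∀ F : MvPolynomial σ K,
        coeff t (act (monomial f 1) F) = (D : K) * coeff (t + f) F) →
      (∀ t : σ →₀ ℕ, ∃ D : ℕ, D ≠ 0 ∧ ∀ F : MvPolynomial σ K,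
        coeff t (act (monomial g 1) F) = (D : K) * coeff (t + g) F) →
      ∀ t : σ →₀ ℕ, ∃ D : ℕ, D ≠ 0 ∧ ∀ F : MvPolynomial σ K,
        coeff t (act (monomial (f + g) 1) F) = (D : K) * coeff (t + (f + g)) F := by
    intro f g hf hg t
    obtain ⟨D1, h1, h2⟩ := hf t
    obtain ⟨D2, h3, h4⟩ := hg (t + f)
    refine ⟨D1 * D2, mul_ne_zero h1 h3, fun F => ?_⟩
    have e : (monomial (f + g) (1 : K) : MvPolynomial σ K) = monomial f 1 * monomial g 1 := by
      rw [monomial_mul, mul_one]
    rw [e, act_mul, h2, h4, Nat.cast_mul, mul_assoc, add_assoc]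
  have hone : ∀ i : σ, ∀ t : σ →₀ ℕ, ∃ D : ℕ, D ≠ 0 ∧ ∀ F : MvPolynomial σ K,
      coeff t (act (monomial (Finsupp.single i 1) 1) F) =
        (D : K) * coeff (t + Finsupp.single i 1) F := by
    intro i t
    refine ⟨t i + 1, Nat.succ_ne_zero _, fun F => ?_⟩
    have e : (monomial (Finsupp.single i 1) (1 : K) : MvPolynomial σ K) = X i := rfl
    rw [e, act_X, coeff_pd]
  have hzero : ∀ t : σ →₀ ℕ, ∃ D : ℕ, D ≠ 0 ∧ ∀ F : MvPolynomial σ K,
      coeff t (act (monomial 0 1) F) = (D : K) * coeff (t + 0) F := by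
    intro t
    refine ⟨1, one_ne_zero, fun F => ?_⟩
    have e : (monomial 0 (1 : K) : MvPolynomial σ K) = 1 := rfl
    rw [e, map_one, Nat.cast_one, one_mul, add_zero]
    rfl
  induction s using Finsupp.induction_linear with
  | zero => exact hzero
  | add f g hf hg => exact hadd f g hf hg
  | single i n =>
    induction n with
    | zero => rw [Finsupp.single_zero]; exact hzero
    | succ n ih => rw [Finsupp.single_add]; exact hadd _ _ ih (hone i)

theorem act_sum (g F : MvPolynomial σ K) :
    act g F = ∑ s ∈ g.support, coeff s g • act (monomial s 1) F := by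
  conv_lhs => rw [g.as_sum]
  rw [map_sum, LinearMap.sum_apply]
  refine Finset.sum_congr rfl fun s _ => ?_
  have e : (monomial s (coeff s g) : MvPolynomial σ K) = coeff s g • monomial s 1 := by
    rw [smul_monomial, smul_eq_mul, mul_one]
  rw [e, map_smul, LinearMap.smul_apply]

end PkgHOM

open PkgHOM in
theorem pHOM : S_HOM := by
  classical
  intro K _ _ σ _ g F i d hg hF
  have key : ∀ t : σ →₀ ℕ, coeff t (act g F) ≠ 0 → Finsupp.weight 1 t + i = d := by
    intro t ht
    rw [act_sum, coeff_sum] at ht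
    obtain ⟨s, hs, hne⟩ := Finset.exists_ne_zero_of_sum_ne_zero ht
    rw [coeff_smul, smul_eq_mul] at hne
    obtain ⟨D, -, hD⟩ := coeff_act_monomial (K := K) s t
    rw [hD] at hne
    have h1 : coeff (t + s) F ≠ 0 := right_ne_zero_of_mul (right_ne_zero_of_mul hne)
    have h2 := hF h1
    have h3 := hg (left_ne_zero_of_mul hne)
    rw [map_add, h3] at h2
    exact h2
  constructor
  · intro hid t ht
    have := key t ht
    omega
  · intro hdi
    ext t
    rw [coeff_zero]
    by_contra hne
    have := key t hne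
    omega

end Pool.Agent.T2H37.PZ
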