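import Pool.Agent.T2H37.PZ.Stm

/-!
# MID: the weak Lefschetz property is the injectivity of one map in the middle degree
-/

set_option autoImplicit false

namespace Pool.Agent.T2H37.PZ

open MvPolynomial

namespace MIDp

variable {K : Type} [Field K] {σ : Type}

theorem act_comm (g h F : MvPolynomial σ K) : act g (act h F) = act h (act g F) := by
  rw [← act_mul, ← act_mul, mul_comm]

theorem hom_ind {b : ℕ} {P : MvPolynomial σ K → Prop} (h0 : P 0) (hadd : ∀ p q, P p → P q → P (p + q))
    (hm : ∀ (s : σ →₀ ℕ) (c : K), s.degree = b → P (monomial s c)) {p : MvPolynomial σ K}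
    (hp : p.IsHomogeneous b) : P p := by
  rw [← support_sum_monomial_coeff p]
  refine Finset.sum_induction _ P hadd h0 ?_
  intro s hs
  apply hm
  have h1 := hp (mem_support_iff.1 hs)
  rw [Finsupp.degree_eq_weight_one]
  exact h1

theorem split_le (s : σ →₀ ℕ) (a : ℕ) (h : a ≤ s.degree) : ∃ s' t : σ →₀ ℕ, s = t + s' ∧ s'.degree = a := by
  classical
  obtain ⟨n, hn⟩ := Nat.exists_eq_add_of_le h
  induction n generalizing s with
  | zero => exact ⟨s, 0, by simp, by simpa using hn⟩
  | succ n ih =>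
    have hne : s ≠ 0 := by
      rintro rfl
      simp at hn
    obtain ⟨j, hj⟩ := Finsupp.ne_iff.1 hne
    have hle : Finsupp.single j 1 ≤ s := by
      rw [Finsupp.single_le_iff]
      exact Nat.one_le_iff_ne_zero.2 (by simpa using hj)
    have hs : s = (s - Finsupp.single j 1) + Finsupp.single j 1 := (tsub_add_cancel_of_le hle).symm
    have hd : s.degree = (s - Finsupp.single j 1).degree + 1 := by
      conv_lhs => rw [hs]
      rw [map_add, Finsupp.degree_single]
    obtain ⟨s', t, h1, h2⟩ := ih (s - Finsupp.single j 1) (by omega) (by omega)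
    refine ⟨s', t + Finsupp.single j 1, ?_, h2⟩
    conv_lhs => rw [hs, h1]
    abel

/-- operators of degree `b ≥ a` kill `G` if all operators of degree `a` do -/
theorem kill {a b : ℕ} (hab : a ≤ b) {G : MvPolynomial σ K}
    (hG : ∀ χ : MvPolynomial σ K, χ.IsHomogeneous a → act χ G = 0) {g : MvPolynomial σ K}
    (hg : g.IsHomogeneous b) : act g G = 0 := by
  refine hom_ind (P := fun g => act g G = 0) (by simp) ?_ ?_ hg
  · intro p q hp hq
    rw [map_add, LinearMap.add_apply, hp, hq, add_zero]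
  · intro s c hs
    obtain ⟨s', t, h1, h2⟩ := split_le s a (by omega)
    have h3 : (monomial s c : MvPolynomial σ K) = monomial t c * monomial s' 1 := by
      rw [monomial_mul, mul_one, h1]
    show act (monomial s c) G = 0
    rw [h3, act_mul, hG _ (isHomogeneous_monomial _ h2), map_zero]

/-- `L` is surjective from degree `i` to degree `i + 1` -/
def Sur (F L : MvPolynomial σ K) (i : ℕ) : Prop := ∀ ψ : MvPolynomial σ K, ψ.IsHomogeneous (i + 1) →
  ∃ χ : MvPolynomial σ K, χ.IsHomogeneous i ∧ act (L * χ) F = act ψ F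

/-- `L` is injective in degree `i` -/
def Inj (F L : MvPolynomial σ K) (i : ℕ) : Prop := ∀ φ : MvPolynomial σ K, φ.IsHomogeneous i →
  act (L * φ) F = 0 → act φ F = 0

theorem sur_mono {F L : MvPolynomial σ K} {i j : ℕ} (hij : i ≤ j) (h : Sur F L i) : Sur F L j := by
  intro ψ hψ
  refine hom_ind (P := fun ψ => ∃ χ : MvPolynomial σ K, χ.IsHomogeneous j ∧ act (L * χ) F = act ψ F)
    ⟨0, isHomogeneous_zero _ _ _, by simp⟩ ?_ ?_ hψ
  · rintro p q ⟨χ1, h1, h2⟩ ⟨χ2, h3, h4⟩
    refine ⟨χ1 + χ2, h1.add h3, ?_⟩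
    rw [mul_add, map_add, map_add, LinearMap.add_apply, LinearMap.add_apply, h2, h4]
  · intro s c hs
    obtain ⟨s', t, h1, h2⟩ := split_le s (i + 1) (by omega)
    obtain ⟨χ, hχ, hχ2⟩ := h (monomial s' 1) (isHomogeneous_monomial _ h2)
    have h3 : (monomial s c : MvPolynomial σ K) = monomial t c * monomial s' 1 := by
      rw [monomial_mul, mul_one, h1]
    have h4 : t.degree + i = j := by
      have := congrArg Finsupp.degree h1
      rw [map_add] at this
      omega
    refine ⟨monomial t c * χ, ?_, ?_⟩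
    · rw [← h4]
      exact (isHomogeneous_monomial _ rfl).mul hχ
    · show act (L * (monomial t c * χ)) F = act (monomial s c) F
      rw [h3, mul_left_comm, act_mul, hχ2, ← act_mul]

theorem wlp_iff {F : MvPolynomial σ K} :
    WLP F ↔ ∃ L : MvPolynomial σ K, L.IsHomogeneous 1 ∧ ∀ i, Inj F L i ∨ Sur F L i := by
  have hz : ∀ g : MvPolynomial σ K, (Ideal.Quotient.mk (ann F) g = 0 ↔ act g F = 0) := by
    intro g
    rw [Ideal.Quotient.eq_zero_iff_mem, mem_ann]
  constructor
  · rintro ⟨l, ⟨L, hL, rfl⟩, h⟩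
    refine ⟨L, (mem_homogeneousSubmodule _ _).1 hL, fun i => ?_⟩
    rcases h i with h | h
    · left
      intro φ hφ h0
      have h1 := h (Ideal.Quotient.mk (ann F) φ) ⟨φ, (mem_homogeneousSubmodule _ _).2 hφ, rfl⟩ (by
        show Ideal.Quotient.mk (ann F) L * Ideal.Quotient.mk (ann F) φ = 0
        rw [← map_mul]
        exact (hz _).2 h0)
      exact (hz _).1 h1
    · right
      intro ψ hψ
      obtain ⟨x, ⟨χ, hχ, rfl⟩, h1⟩ := h (Ideal.Quotient.mk (ann F) ψ)
        ⟨ψ, (mem_homogeneousSubmodule _ _).2 hψ, rfl⟩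
      refine ⟨χ, (mem_homogeneousSubmodule _ _).1 hχ, ?_⟩
      have h2 : Ideal.Quotient.mk (ann F) (L * χ - ψ) = 0 := by
        rw [map_sub, map_mul, sub_eq_zero]
        exact h1
      have h3 := (hz _).1 h2
      rw [map_sub, LinearMap.sub_apply, sub_eq_zero] at h3
      exact h3
  · rintro ⟨L, hL, h⟩
    refine ⟨Ideal.Quotient.mk (ann F) L, ⟨L, (mem_homogeneousSubmodule _ _).2 hL, rfl⟩, fun i => ?_⟩
    rcases h i with h | h
    · left
      rintro x ⟨φ, hφ, rfl⟩ h0
      have h1 : Ideal.Quotient.mk (ann F) (L * φ) = 0 := by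
        rw [map_mul]
        exact h0
      exact (hz _).2 (h φ ((mem_homogeneousSubmodule _ _).1 hφ) ((hz _).1 h1))
    · right
      rintro y ⟨ψ, hψ, rfl⟩
      obtain ⟨χ, hχ, h1⟩ := h ψ ((mem_homogeneousSubmodule _ _).1 hψ)
      refine ⟨Ideal.Quotient.mk (ann F) χ, ⟨χ, (mem_homogeneousSubmodule _ _).2 hχ, rfl⟩, ?_⟩
      show Ideal.Quotient.mk (ann F) L * Ideal.Quotient.mk (ann F) χ = Ideal.Quotient.mk (ann F) ψ
      rw [← map_mul, ← sub_eq_zero, ← map_sub, hz, map_sub, LinearMap.sub_apply, h1, sub_self]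

end MIDp

open MIDp in
theorem pMID (hH : S_HOM) (hN : S_NON) (hR : S_REP) : S_MID := by
  intro K _ _ σ _ F d hd hF
  have hom : ∀ (g : MvPolynomial σ K) (i : ℕ), g.IsHomogeneous i → i ≤ d →
      (act g F).IsHomogeneous (d - i) := fun g i hg hi => (hH K σ g F i d hg hF).1 hi
  -- (1)
  have s1 : ∀ (L : MvPolynomial σ K) (i i0 : ℕ), i ≤ i0 → i0 ≤ d → Inj F L i0 → Inj F L i := by
    intro L i i0 hi hi0 h φ hφ h0
    refine hN K σ _ (d - i) (hom φ i hφ (by omega)) ?_
    intro g hg
    refine kill (a := i0 - i) (by omega) ?_ hg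
    intro χ hχ
    have h1 : (χ * φ).IsHomogeneous i0 := by
      have := hχ.mul hφ
      rwa [Nat.sub_add_cancel hi] at this
    have h2 := h (χ * φ) h1 (by rw [mul_left_comm, act_mul, h0, map_zero])
    rwa [act_mul] at h2
  -- (4)
  have s4 : ∀ (L : MvPolynomial σ K) (i : ℕ), i ≤ d - 1 → Sur F L (d - 1 - i) → Inj F L i := by
    intro L i hi h φ hφ h0
    refine hN K σ _ (d - i) (hom φ i hφ (by omega)) ?_
    intro ψ hψ
    obtain ⟨χ, -, h1⟩ := h ψ (by
      have : d - 1 - i + 1 = d - i := by omega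
      rwa [this])
    rw [act_comm, ← h1, ← act_mul, mul_left_comm, mul_comm φ χ, mul_left_comm, act_mul, h0, map_zero]
  -- (2)
  have s2 : ∀ (L : MvPolynomial σ K) (i : ℕ), L.IsHomogeneous 1 → i ≤ d - 1 → Inj F L i →
      Sur F L (d - 1 - i) := by
    intro L i hL hi h ψ hψ
    have hψ' : ψ.IsHomogeneous (d - i) := by
      have : d - 1 - i + 1 = d - i := by omega
      rwa [this] at hψ
    -- the space of the derivatives
    let A : MvPolynomial σ K →ₗ[K] MvPolynomial σ K :=
      (LinearMap.applyₗ F).comp (act (K := K) (σ := σ)).toLinearMap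
    have hA : ∀ φ, A φ = act φ F := fun φ => rfl
    let M : Submodule K (MvPolynomial σ K) := (homogeneousSubmodule σ K i).map A
    let T : M →ₗ[K] MvPolynomial σ K := (act L).domRestrict M
    have hT : LinearMap.ker T = ⊥ := by
      rw [LinearMap.ker_eq_bot']
      rintro ⟨_, φ, hφ, rfl⟩ h0
      have h1 : act L (act φ F) = 0 := h0
      apply Subtype.ext
      exact h φ ((mem_homogeneousSubmodule _ _).1 hφ) (by rw [act_mul, h1])
    obtain ⟨g, hg⟩ := T.exists_leftInverse_of_injective hT
    let Φ : MvPolynomial σ K →ₗ[K] K := (MvPolynomial.lcoeff K 0).comp ((act ψ).comp (M.subtype.comp g))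
    obtain ⟨χ, hχ, hχ2⟩ := hR K σ Φ (d - 1 - i)
    refine ⟨χ, hχ, ?_⟩
    have hLχ : (L * χ).IsHomogeneous (d - i) := by
      have h1 := hL.mul hχ
      have : 1 + (d - 1 - i) = d - i := by omega
      rwa [this] at h1
    have key : act (L * χ - ψ) F = 0 := by
      refine hN K σ _ i ?_ ?_
      · have h1 := hom (L * χ - ψ) (d - i) (hLχ.sub hψ') (by omega)
        have : d - (d - i) = i := by omega
        rwa [this] at h1
      · intro φ hφ
        have hv : act (L * φ) F = act L (act φ F) := act_mul _ _ _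
        have hvh : (act L (act φ F)).IsHomogeneous (d - 1 - i) := by
          rw [← hv]
          have h1 := hom (L * φ) (1 + i) (hL.mul hφ) (by omega)
          have : d - (1 + i) = d - 1 - i := by omega
          rwa [this] at h1
        have hm : act φ F ∈ M := ⟨φ, (mem_homogeneousSubmodule _ _).2 hφ, rfl⟩
        have hgv : g (act L (act φ F)) = ⟨act φ F, hm⟩ := by
          have := LinearMap.congr_fun hg ⟨act φ F, hm⟩
          exact this
        have h2 : Φ (act L (act φ F)) = coeff 0 (act ψ (act φ F)) := by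
          show coeff 0 (act ψ (M.subtype (g (act L (act φ F))))) = _
          rw [hgv]
          rfl
        have h3 := hχ2 _ hvh
        rw [h2] at h3
        have h4 : act ψ (act φ F) = C (coeff 0 (act ψ (act φ F))) := by
          have h5 : (act ψ (act φ F)).IsHomogeneous 0 := by
            rw [← act_mul]
            have h1 := hom (ψ * φ) (d - i + i) (hψ'.mul hφ) (by omega)
            have : d - (d - i + i) = 0 := by omega
            rwa [this] at h1
          exact totalDegree_eq_zero_iff_eq_C.1 (Nat.le_zero.1 h5.totalDegree_le)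
        rw [← h4] at h3
        rw [act_comm, map_sub, LinearMap.sub_apply, sub_eq_zero, mul_comm, act_mul, h3]
    rw [map_sub, LinearMap.sub_apply, sub_eq_zero] at key
    exact key
  rw [wlp_iff]
  constructor
  · rintro ⟨L, hL, h⟩
    refine ⟨L, hL, ?_⟩
    rcases h ((d - 1) / 2) with h1 | h1
    · exact h1
    · exact s4 L _ (by omega) (sur_mono (by omega) h1)
  · rintro ⟨L, hL, h⟩
    refine ⟨L, hL, fun i => ?_⟩
    by_cases h1 : i ≤ (d - 1) / 2
    · exact Or.inl (s1 L i _ h1 (by omega) h)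
    · right
      by_cases h2 : i ≤ d - 1
      · have h3 : d - 1 - (d - 1 - i) = i := by omega
        have h4 := s2 L (d - 1 - i) hL (by omega) (s1 L _ _ (by omega) (by omega) h)
        rwa [h3] at h4
      · intro ψ hψ
        refine ⟨0, isHomogeneous_zero _ _ _, ?_⟩
        rw [mul_zero, (hH K σ ψ F (i + 1) d hψ hF).2 (by omega)]
        simp

end Pool.Agent.T2H37.PZ
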