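import Pool.Agent.T2H37.PZ.Stm
import Pool.Agent.T2H37.PZ.P_HOM

set_option autoImplicit false

namespace Pool.Agent.T2H37.PZ

open MvPolynomial

open PkgHOM in
theorem pNON : S_NON := by
  classical
  intro K _ _ σ _ F e hF h
  ext s
  rw [coeff_zero]
  by_contra hne
  have hs := hF hne
  have h1 := h (monomial s 1) (isHomogeneous_monomial (R := K) 1 (by
    rw [← hs, Finsupp.degree_eq_weight_one]; rfl))
  obtain ⟨D, hD0, hD⟩ := coeff_act_monomial (K := K) s 0
  have h2 := hD F
  rw [h1, coeff_zero, zero_add] at h2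
  rcases mul_eq_zero.1 h2.symm with h3 | h3
  · exact hD0 (by exact_mod_cast h3)
  · exact hne h3

end Pool.Agent.T2H37.PZ
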