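import Pool.Agent.T2H37.PZ.Stm

set_option autoImplicit false

namespace Pool.Agent.T2H37.PZ

open MvPolynomial

section
variable {K : Type} [Field K] {σ : Type} [Fintype σ]

private noncomputable def fct (s : σ →₀ ℕ) : ℕ := ∏ i, (s i).factorial

open Classical in
private theorem act_mono_mono (e : ℕ) : ∀ s t : σ →₀ ℕ, ∑ i, s i = e → ∑ i, t i = e →
    act (monomial s (1 : K)) (monomial t 1) = if s = t then C ((fct s : ℕ) : K) else 0 := by
  induction e with
  | zero =>
    intro s t hs ht
    have hs0 : s = 0 := by
      ext i
      exact (Finset.sum_eq_zero_iff.1 hs) i (Finset.mem_univ i)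
    have ht0 : t = 0 := by
      ext i
      exact (Finset.sum_eq_zero_iff.1 ht) i (Finset.mem_univ i)
    subst hs0; subst ht0
    rw [if_pos rfl]
    have h1 : (monomial (0 : σ →₀ ℕ) (1 : K)) = 1 := rfl
    have h2 : act (1 : MvPolynomial σ K) = 1 := map_one act
    rw [h1, h2]
    show (1 : MvPolynomial σ K) = C ((fct (0 : σ →₀ ℕ) : ℕ) : K)
    simp [fct]
  | succ e ih =>
    intro s t hs ht
    have hex : ∃ i, s i ≠ 0 := by
      by_contra h
      push Not at h
      have : ∑ i, s i = 0 := Finset.sum_eq_zero fun i _ => h i
      omega
    obtain ⟨i, hi⟩ := hex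
    set s' : σ →₀ ℕ := s - Finsupp.single i 1 with hs'
    have hle : Finsupp.single i 1 ≤ s := by
      rw [Finsupp.single_le_iff]; omega
    have hss : s = s' + Finsupp.single i 1 := (tsub_add_cancel_of_le hle).symm
    have hsum' : ∑ j, s' j = e := by
      rw [hss] at hs
      simp only [Finsupp.coe_add, Pi.add_apply, Finset.sum_add_distrib] at hs
      have : ∑ j, (Finsupp.single i 1 : σ →₀ ℕ) j = 1 := by
        rw [Finset.sum_eq_single i]
        · simp
        · intro j _ hj; rw [Finsupp.single_eq_of_ne hj]
        · intro h; exact absurd (Finset.mem_univ i) h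
      omega
    have hmul : monomial s (1 : K) = monomial s' 1 * X i := by
      rw [hss]
      simp [X, monomial_mul]
    rw [hmul, act_mul, act_X, pderiv_monomial]
    by_cases hti : t i = 0
    · rw [hti]
      have hne : s ≠ t := by
        rintro rfl; exact hi hti
      rw [if_neg hne]
      simp
    · set t' : σ →₀ ℕ := t - Finsupp.single i 1 with ht'
      have hle2 : Finsupp.single i 1 ≤ t := by
        rw [Finsupp.single_le_iff]; omega
      have htt : t = t' + Finsupp.single i 1 := (tsub_add_cancel_of_le hle2).symm
      have hsumt : ∑ j, t' j = e := by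
        rw [htt] at ht
        simp only [Finsupp.coe_add, Pi.add_apply, Finset.sum_add_distrib] at ht
        have : ∑ j, (Finsupp.single i 1 : σ →₀ ℕ) j = 1 := by
          rw [Finset.sum_eq_single i]
          · simp
          · intro j _ hj; rw [Finsupp.single_eq_of_ne hj]
          · intro h; exact absurd (Finset.mem_univ i) h
        omega
      have h1 : (monomial t' ((1 : K) * (t i : ℕ)) : MvPolynomial σ K) =
          ((t i : ℕ) : K) • monomial t' 1 := by
        rw [smul_monomial]
        simp
      rw [h1, map_smul, ih s' t' hsum' hsumt]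
      by_cases hst : s = t
      · subst hst
        rw [if_pos rfl, if_pos rfl, MvPolynomial.smul_eq_C_mul, ← C_mul]
        congr 1
        rw [← Nat.cast_mul]
        congr 1
        unfold fct
        rw [← Finset.mul_prod_erase Finset.univ _ (Finset.mem_univ i),
          ← Finset.mul_prod_erase Finset.univ (fun j => (s j).factorial) (Finset.mem_univ i)]
        have h2 : s i = s' i + 1 := by
          conv_lhs => rw [hss]
          simp
        have h3 : ∀ j ∈ Finset.univ.erase i, (s' j).factorial = (s j).factorial := by
          intro j hj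
          rw [Finset.mem_erase] at hj
          have : s j = s' j := by
            conv_lhs => rw [hss]
            simp [Finsupp.single_eq_of_ne hj.1]
          rw [this]
        rw [Finset.prod_congr rfl h3, ← mul_assoc]
        congr 1
        rw [h2, Nat.factorial_succ]
      · have hne : s' ≠ t' := by
          intro h
          apply hst
          rw [hss, htt, h]
        rw [if_neg hst, if_neg hne, smul_zero]

end

theorem pREP : S_REP := by
  classical
  intro K _ _ σ _ φ e
  set S : Finset (σ →₀ ℕ) := Finset.univ.finsuppAntidiag e with hS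
  have hmem : ∀ s : σ →₀ ℕ, s ∈ S ↔ ∑ i, s i = e := by
    intro s
    rw [hS, Finset.mem_finsuppAntidiag]
    simp
  set f : MvPolynomial σ K := ∑ s ∈ S, monomial s (φ (monomial s 1) / (fct s : K)) with hf
  have hdeg : ∀ s : σ →₀ ℕ, Finsupp.weight (1 : σ → ℕ) s = ∑ i, s i := by
    intro s
    rw [Finsupp.weight_apply, Finsupp.sum_fintype]
    · simp
    · simp
  have hmono : ∀ (t : σ →₀ ℕ) (c : K), ∑ i, t i = e →
      act f (monomial t c) = C (φ (monomial t c)) := by
    intro t c ht
    have h1 : (monomial t c : MvPolynomial σ K) = c • monomial t 1 := by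
      rw [smul_monomial]; simp
    rw [h1, map_smul, hf, map_sum, LinearMap.sum_apply, Finset.sum_eq_single t]
    · have h2 : (monomial t (φ (monomial t 1) / (fct t : K)) : MvPolynomial σ K) =
          (φ (monomial t 1) / (fct t : K)) • monomial t 1 := by
        rw [smul_monomial]; simp
      rw [h2, map_smul, LinearMap.smul_apply, act_mono_mono e t t ht ht, if_pos rfl, map_smul]
      have h3 : (fct t : K) ≠ 0 := by
        have : fct t ≠ 0 := by
          unfold fct
          exact Finset.prod_ne_zero_iff.2 fun i _ => Nat.factorial_ne_zero _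
        exact_mod_cast this
      rw [MvPolynomial.smul_eq_C_mul, MvPolynomial.smul_eq_C_mul, ← C_mul, ← C_mul]
      congr 1
      rw [smul_eq_mul]
      field_simp
    · intro s hs hst
      have h2 : (monomial s (φ (monomial s 1) / (fct s : K)) : MvPolynomial σ K) =
          (φ (monomial s 1) / (fct s : K)) • monomial s 1 := by
        rw [smul_monomial]; simp
      rw [h2, map_smul, LinearMap.smul_apply, act_mono_mono e s t ((hmem s).1 hs) ht, if_neg hst,
        smul_zero]
    · intro h; exact absurd ((hmem t).2 ht) h
  refine ⟨f, ?_, ?_⟩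
  · rw [hf]
    apply IsHomogeneous.sum
    intro s hs
    apply isHomogeneous_monomial
    rw [Finsupp.degree_eq_weight_one]
    rw [← (hmem s).1 hs]
    exact hdeg s
  · intro v hv
    have h1 : v = ∑ t ∈ v.support, monomial t (coeff t v) := v.as_sum
    have h2 : act f v = ∑ t ∈ v.support, act f (monomial t (coeff t v)) := by
      conv_lhs => rw [h1]
      rw [map_sum]
    have h3 : φ v = ∑ t ∈ v.support, φ (monomial t (coeff t v)) := by
      conv_lhs => rw [h1]
      rw [map_sum]
    rw [h2, h3, map_sum (C : K →+* MvPolynomial σ K)]
    apply Finset.sum_congr rfl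
    intro t ht
    apply hmono
    rw [mem_support_iff] at ht
    have h4 := hv ht
    rw [← hdeg t]
    exact h4

end Pool.Agent.T2H37.PZ
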