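import Pool.Agent.T2H37.PZ.Stm2

set_option autoImplicit false

namespace Pool.Agent.T2H37.PZ

open MvPolynomial Module

namespace PkgDP

theorem homog_eq (K : Type) [Field K] (m e : ℕ) : homogeneousSubmodule (Fin (m + 1)) K e =
    restrictSupport K (((Finset.univ : Finset (Fin (m + 1))).finsuppAntidiag e : Finset (Fin (m + 1) →₀ ℕ)) :
      Set (Fin (m + 1) →₀ ℕ)) := by
  ext p
  rw [mem_homogeneousSubmodule, mem_restrictSupport_iff]
  constructor
  · intro hp d hd
    have h1 := hp (mem_support_iff.1 hd)
    rw [Finset.mem_coe, Finset.mem_finsuppAntidiag]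
    refine ⟨?_, Finset.subset_univ _⟩
    rw [← h1, Finsupp.weight_apply, Finsupp.sum_fintype]
    · simp
    · intro i; simp
  · intro hp d hd
    have h1 := hp (mem_support_iff.2 hd)
    rw [Finset.mem_coe, Finset.mem_finsuppAntidiag] at h1
    rw [← h1.1, Finsupp.weight_apply, Finsupp.sum_fintype]
    · simp
    · intro i; simp

theorem homog_finrank (K : Type) [Field K] (m e : ℕ) :
    finrank K (homogeneousSubmodule (Fin (m + 1)) K e) = (m + e).choose m := by
  rw [homog_eq, finrank_eq_nat_card_basis (basisRestrictSupport K _)]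
  rw [Nat.card_coe_set_eq, Set.ncard_coe_finset, Finset.card_finsuppAntidiag_nat_eq_choose]
  simp only [Finset.card_univ, Fintype.card_fin]
  rw [show m + 1 + e - 1 = m + e by omega]
  rw [← Nat.choose_symm (show m ≤ m + e by omega)]
  congr 1
  omega

theorem homog_fin (K : Type) [Field K] (m e : ℕ) :
    Module.Finite K (homogeneousSubmodule (Fin (m + 1)) K e) := by
  rw [homog_eq]
  exact Module.Finite.of_basis (basisRestrictSupport K _)

end PkgDP

theorem pDIM : S_DIM := by
  intro K _ _ n m e v hv hli
  have hfin := PkgDP.homog_fin K m e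
  rw [← PkgDP.homog_finrank K m e]
  have h1 : LinearIndependent K
      (fun j => (⟨v j, hv j⟩ : homogeneousSubmodule (Fin (m + 1)) K e)) := by
    apply LinearIndependent.of_comp (homogeneousSubmodule (Fin (m + 1)) K e).subtype
    exact hli
  have h2 := h1.fintype_card_le_finrank
  rwa [Fintype.card_fin] at h2

end Pool.Agent.T2H37.PZ
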