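import Pool.Agent.T2H37.PZ.P_DIM

set_option autoImplicit false

namespace Pool.Agent.T2H37.PZ

open MvPolynomial Module

theorem pPTS (hREP : S_REP) : S_PTS := by
  intro K _ _ n m e hn
  have hfin := PkgDP.homog_fin K m e
  have hfr := PkgDP.homog_finrank K m e
  obtain ⟨g, hg⟩ : ∃ g : (Fin (m + 1) → K) → MvPolynomial (Fin (m + 1)) K, g = fun a => lin a ^ e := ⟨_, rfl⟩
  have hgh : ∀ a, (g a).IsHomogeneous e := by
    intro a
    rw [hg]
    have := (lin_hom a).pow e
    rwa [one_mul] at this
  -- the span of the powers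
  have hle : Submodule.span K (Set.range g) ≤ homogeneousSubmodule (Fin (m + 1)) K e := by
    rw [Submodule.span_le]
    rintro _ ⟨a, rfl⟩
    exact hgh a
  have hge : homogeneousSubmodule (Fin (m + 1)) K e ≤ Submodule.span K (Set.range g) := by
    intro v hv
    by_contra hvn
    obtain ⟨φ, hφv, hφ⟩ := Submodule.exists_le_ker_of_notMem hvn
    obtain ⟨f, hf, hact⟩ := hREP K (Fin (m + 1)) φ e
    have hev : ∀ a, eval a f = 0 := by
      intro a
      have h1 := hact (g a) (hgh a)
      have h2 : φ (g a) = 0 := hφ (Submodule.subset_span ⟨a, rfl⟩)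
      rw [h2, map_zero, hg] at h1
      have h3 := act_lin_pow a (le_refl e) hf
      rw [h3, Nat.sub_self, pow_zero, mul_one, C_eq_zero] at h1
      rcases mul_eq_zero.1 h1 with h4 | h4
      · exact absurd h4 (desc_ne (le_refl e))
      · exact h4
    have hf0 : f = 0 := MvPolynomial.funext fun a => by rw [hev a, map_zero]
    have h5 := hact v hv
    rw [hf0, map_zero, LinearMap.zero_apply] at h5
    exact hφv ((C_eq_zero.1 h5.symm))
  have heq : Submodule.span K (Set.range g) = homogeneousSubmodule (Fin (m + 1)) K e := le_antisymm hle hge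
  obtain ⟨b, hb1, hb2, hb3⟩ := exists_linearIndependent K (Set.range g)
  have hcard : Nat.card b = (m + e).choose m := by
    rw [← hfr, ← heq, ← hb2]
    have h1 := finrank_eq_nat_card_basis (Basis.span hb3)
    rw [Subtype.range_coe_subtype, Set.ofPred_mem_eq] at h1
    exact h1.symm
  have hpos : 0 < Nat.card b := by omega
  have hbf : Finite b := Nat.finite_of_card_ne_zero hpos.ne'
  have hbt : Fintype b := Fintype.ofFinite b
  have hle2 : Fintype.card (Fin (n + 1)) ≤ Fintype.card b := by
    rw [Fintype.card_fin, ← Nat.card_eq_fintype_card, hcard]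
    exact hn
  obtain ⟨ι⟩ := Function.Embedding.nonempty_of_card_le hle2
  have hch : ∀ j, ∃ a, g a = (ι j : MvPolynomial (Fin (m + 1)) K) := fun j => hb1 (ι j).2
  choose a ha using hch
  refine ⟨a, ?_⟩
  have h6 := hb3.comp ι ι.injective
  have h7 : (fun j => lin (a j) ^ e) = (fun x : b => (x : MvPolynomial (Fin (m + 1)) K)) ∘ ι := by
    funext j
    have := ha j
    rw [hg] at this
    exact this
  rw [h7]
  exact h6

end Pool.Agent.T2H37.PZ
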