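import Pool.Agent.T2H37.PZ.Stm2

set_option autoImplicit false

namespace Pool.Agent.T2H37.PZ

open MvPolynomial

section
variable {K : Type} [Field K] [CharZero K] {m : ℕ}

theorem eq_zero_of_forms (hHOM : S_HOM) (s : ℕ) : ∀ (r : ℕ) (h : MvPolynomial (Fin m) K), s ≤ r → h.IsHomogeneous r →
    (∀ g : MvPolynomial (Fin m) K, g.IsHomogeneous s → act g h = 0) → h = 0 := by
  induction s with
  | zero =>
    intro r h _ _ h0
    have := h0 1 (isHomogeneous_one _ _)
    rwa [map_one, Module.End.one_apply] at this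
  | succ s ih =>
    intro r h hr hh h0
    obtain ⟨r', rfl⟩ : ∃ r', r = r' + 1 := ⟨r - 1, by omega⟩
    refine eq_zero_of_pderiv hh fun k => ?_
    refine ih r' _ (by omega) ?_ fun g hg => ?_
    · have := (hHOM K (Fin m) (X k) h 1 (r' + 1) (isHomogeneous_X K k) hh).1 (by omega)
      rwa [act_X, Nat.add_sub_cancel] at this
    · rw [← act_X, ← act_mul]
      exact h0 _ (hg.mul (isHomogeneous_X K k))

end

theorem nec (hHOM : S_HOM) (hMID : S_MID) (hDIM : S_DIM) (K : Type) [Field K] [CharZero K] (n m d : ℕ) (hd : 3 ≤ d)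
    (p : Fin (n + 1) → MvPolynomial (Fin (m + 1)) K) (G : MvPolynomial (Fin (m + 1)) K)
    (hp : ∀ j, (p j).IsHomogeneous (d - 1)) (hG : G.IsHomogeneous d) (hLI : LinearIndependent K p)
    (hW : WLP (perazzo p G)) : n + 1 ≤ (m + d / 2).choose m := by
  have hF : (perazzo p G).IsHomogeneous d := by
    obtain ⟨k, rfl⟩ : ∃ k, d = k + 1 := ⟨d - 1, by omega⟩
    exact pz_hom hG (by simpa using hp)
  rw [hMID K _ _ d (by omega) hF] at hW
  obtain ⟨i, hi⟩ : ∃ i, (d - 1) / 2 = i + 1 := ⟨(d - 1) / 2 - 1, by omega⟩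
  rw [hi, pPER K n (m + 1) d i _ G hp hG] at hW
  obtain ⟨l, hl, q, -, h⟩ := hW
  obtain ⟨e, he⟩ : ∃ e, d / 2 = e := ⟨_, rfl⟩
  rw [he]
  have hstep : ∀ k, k ≤ i → ∀ c : Fin (n + 1) → K, act (l ^ (k + 1)) (∑ j, c j • p j) = 0 →
      act (l ^ k) (∑ j, c j • p j) = 0 := by
    intro k hk c hc
    have hlk : (l ^ k).IsHomogeneous k := by simpa using hl.pow k
    have hhc : (∑ j, c j • p j).IsHomogeneous (d - 1) := by
      refine IsHomogeneous.sum _ _ _ fun j _ => ?_
      rw [smul_eq_C_mul]
      simpa using (isHomogeneous_C _ (c j)).mul (hp j)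
    refine eq_zero_of_forms hHOM (i - k) (d - 1 - k) _ (by omega)
      ((hHOM K _ (l ^ k) _ k (d - 1) hlk hhc).1 (by omega)) fun g hg => ?_
    have hgj : (g * l ^ k).IsHomogeneous i := by
      have := hg.mul hlk
      rwa [Nat.sub_add_cancel hk] at this
    have hsum : ∑ j, act (C (c j) * (g * l ^ k)) (p j) = act g (act (l ^ k) (∑ j, c j • p j)) := by
      rw [← act_mul, map_sum]
      refine Finset.sum_congr rfl fun j _ => ?_
      rw [act_mul, act_C, map_smul]
    have h1 := h 0 (fun j => C (c j) * (g * l ^ k)) (isHomogeneous_zero _ _ _) (fun j => by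
        simpa using (isHomogeneous_C _ (c j)).mul hgj) (fun j => by rw [mul_zero, act_zero']) (by
        rw [act_zero', act_zero', zero_add, add_zero, hsum, ← act_mul, ← act_mul,
          show l * g * l ^ k = g * l ^ (k + 1) by ring, act_mul, hc, map_zero])
    have h2 := h1.2
    rw [act_zero', zero_add, hsum] at h2
    exact h2
  have hiter : ∀ k, k ≤ i + 1 → ∀ c : Fin (n + 1) → K, act (l ^ k) (∑ j, c j • p j) = 0 →
      ∑ j, c j • p j = 0 := by
    intro k
    induction k with
    | zero =>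
      intro _ c hc
      rwa [pow_zero, map_one, Module.End.one_apply] at hc
    | succ k ih =>
      intro hk c hc
      exact ih (by omega) c (hstep k (by omega) c hc)
  refine hDIM K n m e (fun j => act (l ^ (i + 1)) (p j)) (fun j => ?_) ?_
  · have := (hHOM K _ (l ^ (i + 1)) (p j) (i + 1) (d - 1) (by simpa using hl.pow (i + 1)) (hp j)).1 (by omega)
    rwa [show d - 1 - (i + 1) = e by omega] at this
  · rw [Fintype.linearIndependent_iff]
    intro c hc
    have h1 : act (l ^ (i + 1)) (∑ j, c j • p j) = 0 := by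
      rw [map_sum, ← hc]
      exact Finset.sum_congr rfl fun j _ => map_smul _ _ _
    exact Fintype.linearIndependent_iff.1 hLI c (hiter (i + 1) le_rfl c h1)

theorem suf (hMID : S_MID) (hPTS : S_PTS) (K : Type) [Field K] [CharZero K] (n m d : ℕ) (hd : 3 ≤ d)
    (hn : n + 1 ≤ (m + d / 2).choose m) :
    ∃ (p : Fin (n + 1) → MvPolynomial (Fin (m + 1)) K) (G : MvPolynomial (Fin (m + 1)) K),
      (∀ j, (p j).IsHomogeneous (d - 1)) ∧ LinearIndependent K p ∧ G.IsHomogeneous d ∧ WLP (perazzo p G) := by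
  obtain ⟨a, ha⟩ := hPTS K n m (d / 2) hn
  have hane : ∀ j, a j ≠ 0 := by
    intro j h0
    apply ha.ne_zero j
    have : lin (a j) = 0 := by
      rw [h0]
      unfold lin
      simp
    simp only [this]
    exact zero_pow (by omega)
  obtain ⟨t, ht⟩ := exists_lin_ne a hane
  have hLI : LinearIndependent K fun j => lin (a j) ^ (d - 1) := by
    rw [Fintype.linearIndependent_iff]
    intro c hc j
    have hth : (lin t ^ (d - 1 - d / 2)).IsHomogeneous (d - 1 - d / 2) := by
      simpa using (lin_hom t).pow (d - 1 - d / 2)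
    have h1 := congrArg (act (lin t ^ (d - 1 - d / 2))) hc
    rw [map_zero, map_sum] at h1
    have h2 : ∀ j, act (lin t ^ (d - 1 - d / 2)) (c j • lin (a j) ^ (d - 1)) =
        (c j * (((d - 1).descFactorial (d - 1 - d / 2) : K) * eval (a j) (lin t ^ (d - 1 - d / 2)))) •
          lin (a j) ^ (d / 2) := by
      intro j
      rw [map_smul, act_lin_pow (a j) (by omega) hth, show d - 1 - (d - 1 - d / 2) = d / 2 by omega,
        smul_eq_C_mul, smul_eq_C_mul]
      simp only [C_mul]
      ring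
    simp_rw [h2] at h1
    have h3 := Fintype.linearIndependent_iff.1 ha _ h1 j
    refine (mul_eq_zero.1 h3).resolve_right (mul_ne_zero (desc_ne (by omega)) ?_)
    rw [map_pow]
    exact pow_ne_zero _ (ht j)
  refine ⟨fun j => lin (a j) ^ (d - 1), 0, fun j => by simpa using (lin_hom (a j)).pow (d - 1), hLI,
    isHomogeneous_zero _ _ _, ?_⟩
  exact (powers hMID K n (m + 1) d hd a 0 (isHomogeneous_zero _ _ _) hLI (fun f _ _ => by
    rw [map_zero]; exact Submodule.zero_mem _)).2 ha

end Pool.Agent.T2H37.PZ
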