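import Pool.Agent.T2H37.PZ.P_PER

set_option autoImplicit false

namespace Pool.Agent.T2H37.PZ

open MvPolynomial

theorem pFIN (hHOM : S_HOM) (hMID : S_MID) (hDA : S_DA) (hDB : S_DB) : S_FIN := by
  intro K _ _ n m d hd p G hp hG
  have hF : (perazzo p G).IsHomogeneous d := by
    obtain ⟨k, rfl⟩ : ∃ k, d = k + 1 := ⟨d - 1, by omega⟩
    exact pz_hom hG (by simpa using hp)
  rw [hMID K _ (perazzo p G) d (by omega) hF]
  obtain ⟨i, hi⟩ : ∃ i, (d - 1) / 2 = i + 1 := ⟨(d - 1) / 2 - 1, by omega⟩
  rw [hi, pPER K n m d i p G hp hG]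
  obtain ⟨e, he⟩ : ∃ e, d - 1 - (i + 1) = e := ⟨_, rfl⟩
  have hde : d = e + 1 + (i + 1) := by omega
  have hp' : ∀ j, (p j).IsHomogeneous (e + 1 + i) := fun j => by
    have := hp j
    rwa [show d - 1 = e + 1 + i by omega] at this
  have e1 : d - (i + 1) = e + 1 := by omega
  rw [e1, he, Nat.add_sub_cancel]
  refine exists_congr fun l => and_congr_right fun hl => exists_congr fun q => and_congr_right fun hq => ?_
  have hqh : q.IsHomogeneous (d - 1) := by
    have : q ∈ homogeneousSubmodule (Fin m) K (d - 1) := by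
      refine Submodule.span_le.2 ?_ hq
      rintro _ ⟨j, rfl⟩
      exact hp j
    exact this
  have hvh : ∀ f : MvPolynomial (Fin m) K, f.IsHomogeneous (i + 1) →
      (act f q + act l (act f G)).IsHomogeneous e := by
    intro f hf
    refine IsHomogeneous.add ?_ ?_
    · have := (hHOM K (Fin m) f q (i + 1) (d - 1) hf hqh).1 (by omega)
      rwa [he] at this
    · have h1 := (hHOM K (Fin m) f G (i + 1) d hf hG).1 (by omega)
      rw [e1] at h1
      have h2 := (hHOM K (Fin m) l _ 1 (e + 1) hl h1).1 (by omega)
      simpa using h2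
  have hneg : ∀ g : Fin (n + 1) → MvPolynomial (Fin m) K,
      ∑ j, act (-g j) (p j) = -∑ j, act (g j) (p j) := by
    intro g
    rw [← Finset.sum_neg_distrib]
    refine Finset.sum_congr rfl fun j _ => ?_
    rw [map_neg]; rfl
  constructor
  · intro h
    refine ⟨?_, ?_⟩
    · have := (hDA K n m e i p l hp' hl).2 (by
        intro g hg h0
        have h1 := h 0 g (isHomogeneous_zero _ _ _) hg (fun j => by rw [mul_zero, act_zero'])
          (by rw [act_zero', act_zero', zero_add, add_zero]; exact h0)
        have h2 := h1.2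
        rwa [act_zero', zero_add] at h2)
      exact this
    · intro f hf hlf hfg
      obtain ⟨g', hg', h'⟩ := (hDB K n m e i p l (act f q + act l (act f G)) hp' hl (hvh f hf)).2 (by
        intro g hg hlg
        have := hfg g hg hlg
        rw [map_add, ← act_mul, ← act_mul, ← act_mul, mul_comm g f, show g * l * f = l * f * g by ring]
        exact this)
      have h3 := h f (fun j => -g' j) hf (fun j => (hg' j).neg) hlf (by
        rw [hneg, map_add, map_neg, h']
        ring)
      rw [hneg] at h3
      exact ⟨h3.1, g', hg', by rw [← sub_eq_zero, sub_eq_add_neg]; exact h3.2⟩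
  · rintro ⟨hA, hB⟩ f g hf hg hlf h0
    have h1 := (hDB K n m e i p l (act f q + act l (act f G)) hp' hl (hvh f hf)).1 ⟨fun j => -g j,
      fun j => (hg j).neg, by
        rw [hneg, map_neg]
        rw [map_add] at h0
        linear_combination -h0⟩
    obtain ⟨h2, g', hg', h3⟩ := hB f hf hlf (by
      intro g'' hg'' hlg''
      have := h1 g'' hg'' hlg''
      rw [map_add, ← act_mul, ← act_mul, ← act_mul, mul_comm g'' f,
        show g'' * l * f = l * f * g'' by ring] at this
      exact this)
    refine ⟨h2, ?_⟩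
    have hfq : act f q = 0 := by
      obtain ⟨c, rfl⟩ := (Submodule.mem_span_range_iff_exists_fun K).1 hq
      rw [map_sum]
      refine Finset.sum_eq_zero fun j _ => ?_
      rw [map_smul, mem_ann.1 (h2 j), smul_zero]
    have hadd : ∑ j, act (g' j + g j) (p j) = act f G + ∑ j, act (g j) (p j) := by
      rw [h3, ← Finset.sum_add_distrib]
      exact Finset.sum_congr rfl fun j _ => act_add _ _ _
    rw [← hadd]
    refine (hDA K n m e i p l hp' hl).1 hA (fun j => g' j + g j) (fun j => (hg' j).add (hg j)) ?_
    rw [hadd]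
    rwa [hfq, add_zero] at h0

end Pool.Agent.T2H37.PZ
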