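import Pool.Agent.T2H37.PZ.Stm

set_option autoImplicit false

namespace Pool.Agent.T2H37.PZ

open MvPolynomial

section
variable {K : Type} [Field K] {σ : Type}

theorem act_C (a : K) (F : MvPolynomial σ K) : act (C a) F = a • F := by
  have h : (C a : MvPolynomial σ K) = algebraMap K _ a := rfl
  rw [h, AlgHom.commutes]
  rfl

theorem act_add (g h F : MvPolynomial σ K) : act (g + h) F = act g F + act h F := by
  rw [map_add]; rfl

theorem act_zero' (F : MvPolynomial σ K) : act 0 F = 0 := by
  rw [map_zero]; rfl

end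

section
variable {K : Type} [Field K] {n m : ℕ}

theorem x_up (j : Fin (n + 1)) (v : MvPolynomial (Fin m) K) :
    act (X (Sum.inl j)) (rename (Sum.inr : Fin m → Fin (n + 1) ⊕ Fin m) v) = 0 := by
  rw [act_X]
  induction v using MvPolynomial.induction_on with
  | C a => simp
  | add p q hp hq => rw [map_add, map_add, hp, hq, add_zero]
  | mul_X p i hp =>
    rw [map_mul, rename_X, Derivation.leibniz, hp, pderiv_X]
    simp

theorem up_act (f v : MvPolynomial (Fin m) K) :
    act (rename (Sum.inr : Fin m → Fin (n + 1) ⊕ Fin m) f) (rename Sum.inr v) = rename Sum.inr (act f v) := by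
  induction f using MvPolynomial.induction_on generalizing v with
  | C a => rw [rename_C, act_C, act_C, map_smul]
  | add p q hp hq => rw [map_add, act_add, act_add, hp, hq, map_add]
  | mul_X p i hp =>
    rw [map_mul, rename_X, act_mul, act_mul, act_X, act_X, pderiv_rename Sum.inr_injective, hp]

theorem up_Xmul (j : Fin (n + 1)) (f v : MvPolynomial (Fin m) K) :
    act (rename (Sum.inr : Fin m → Fin (n + 1) ⊕ Fin m) f) (X (Sum.inl j) * rename Sum.inr v) =
      X (Sum.inl j) * rename Sum.inr (act f v) := by
  induction f using MvPolynomial.induction_on generalizing v with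
  | C a => rw [rename_C, act_C, act_C, map_smul, mul_smul_comm]
  | add p q hp hq => rw [map_add, act_add, act_add, hp, hq, map_add, mul_add]
  | mul_X p i hp =>
    rw [map_mul (rename (Sum.inr : Fin m → Fin (n + 1) ⊕ Fin m)), rename_X, act_mul, act_mul, act_X, act_X,
      Derivation.leibniz, pderiv_rename Sum.inr_injective, pderiv_X]
    simp [hp]

theorem x_Xmul (k j : Fin (n + 1)) (v : MvPolynomial (Fin m) K) :
    act (X (Sum.inl k)) (X (Sum.inl j) * rename (Sum.inr : Fin m → Fin (n + 1) ⊕ Fin m) v) =
      if j = k then rename Sum.inr v else 0 := by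
  have h := x_up (K := K) (m := m) k v
  rw [act_X] at h
  rw [act_X, Derivation.leibniz, h, pderiv_X]
  by_cases hjk : j = k
  · subst hjk; simp
  · simp [hjk]

theorem act_x_pz (k : Fin (n + 1)) (v : Fin (n + 1) → MvPolynomial (Fin m) K) (w : MvPolynomial (Fin m) K) :
    act (X (Sum.inl k)) (perazzo v w) = rename Sum.inr (v k) := by
  unfold perazzo
  rw [map_add, map_sum, x_up, add_zero]
  simp_rw [x_Xmul]
  simp

theorem act_up_pz (f : MvPolynomial (Fin m) K) (v : Fin (n + 1) → MvPolynomial (Fin m) K)
    (w : MvPolynomial (Fin m) K) :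
    act (rename Sum.inr f) (perazzo v w) = perazzo (fun j => act f (v j)) (act f w) := by
  unfold perazzo
  rw [map_add, map_sum, up_act]
  simp_rw [up_Xmul]

theorem act_pz_pz (f w : MvPolynomial (Fin m) K) (g v : Fin (n + 1) → MvPolynomial (Fin m) K) :
    act (perazzo g f) (perazzo v w) = perazzo (fun j => act f (v j)) (act f w + ∑ j, act (g j) (v j)) := by
  have h1 : act (perazzo g f) (perazzo v w) =
      ∑ j, act (rename Sum.inr (g j)) (act (X (Sum.inl j)) (perazzo v w)) +
        act (rename Sum.inr f) (perazzo v w) := by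
    rw [show act (perazzo g f) (perazzo v w) =
      act (∑ j, X (Sum.inl j) * rename Sum.inr (g j) + rename Sum.inr f) (perazzo v w) from rfl, act_add, map_sum,
      LinearMap.sum_apply]
    congr 1
    refine Finset.sum_congr rfl fun j _ => ?_
    rw [mul_comm, act_mul]
  rw [h1, act_up_pz]
  simp_rw [act_x_pz, up_act]
  unfold perazzo
  rw [map_add, map_sum]
  ring

theorem pz_zero {v : Fin (n + 1) → MvPolynomial (Fin m) K} {w : MvPolynomial (Fin m) K}
    (h : perazzo v w = 0) : (∀ j, v j = 0) ∧ w = 0 := by
  have h1 : ∀ j, v j = 0 := by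
    intro j
    have := act_x_pz j v w
    rw [h, map_zero] at this
    exact rename_injective _ Sum.inr_injective (by rw [← this, map_zero])
  refine ⟨h1, ?_⟩
  unfold perazzo at h
  simp only [h1, map_zero, mul_zero, Finset.sum_const_zero, zero_add] at h
  exact rename_injective _ Sum.inr_injective (by rw [h, map_zero])

theorem pz_of_zero {v : Fin (n + 1) → MvPolynomial (Fin m) K} {w : MvPolynomial (Fin m) K}
    (h1 : ∀ j, v j = 0) (h2 : w = 0) : perazzo v w = 0 := by
  unfold perazzo
  simp [h1, h2]

theorem pz_hom {g : Fin (n + 1) → MvPolynomial (Fin m) K} {f : MvPolynomial (Fin m) K} {i : ℕ}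
    (hf : f.IsHomogeneous (i + 1)) (hg : ∀ j, (g j).IsHomogeneous i) : (perazzo g f).IsHomogeneous (i + 1) := by
  unfold perazzo
  refine IsHomogeneous.add ?_ hf.rename_isHomogeneous
  refine IsHomogeneous.sum _ _ _ fun j _ => ?_
  rw [add_comm i 1]
  exact (isHomogeneous_X K _).mul (hg j).rename_isHomogeneous

/-- operators in normal form -/
def Good (i : ℕ) (φ : MvPolynomial (Fin (n + 1) ⊕ Fin m) K) : Prop :=
  ∃ (f : MvPolynomial (Fin m) K) (g : Fin (n + 1) → MvPolynomial (Fin m) K), f.IsHomogeneous (i + 1) ∧
    (∀ j, (g j).IsHomogeneous i) ∧ ∀ v w, act φ (perazzo v w) = act (perazzo g f) (perazzo v w)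

theorem good_add {i : ℕ} {φ ψ : MvPolynomial (Fin (n + 1) ⊕ Fin m) K} (h1 : Good i φ) (h2 : Good i ψ) :
    Good i (φ + ψ) := by
  obtain ⟨f, g, hf, hg, h⟩ := h1
  obtain ⟨f', g', hf', hg', h'⟩ := h2
  refine ⟨f + f', fun j => g j + g' j, hf.add hf', fun j => (hg j).add (hg' j), fun v w => ?_⟩
  rw [act_add, h, h', act_pz_pz, act_pz_pz, act_pz_pz]
  unfold perazzo
  simp only [map_add, Finset.sum_add_distrib, mul_add, map_sum, LinearMap.add_apply]
  ring

theorem good_zero {i : ℕ} : Good i (0 : MvPolynomial (Fin (n + 1) ⊕ Fin m) K) := by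
  refine ⟨0, fun _ => 0, isHomogeneous_zero _ _ _, fun _ => isHomogeneous_zero _ _ _, fun v w => ?_⟩
  rw [act_zero', pz_of_zero (fun _ => rfl) rfl, act_zero']

theorem good_step {i : ℕ} (a : Fin (n + 1) ⊕ Fin m) {φ : MvPolynomial (Fin (n + 1) ⊕ Fin m) K}
    (h : Good i φ) : Good (i + 1) (X a * φ) := by
  obtain ⟨f, g, hf, hg, h⟩ := h
  cases a with
  | inl k =>
    refine ⟨0, Pi.single k f, isHomogeneous_zero _ _ _, fun j => ?_, fun v w => ?_⟩
    · by_cases hj : j = k
      · subst hj; simpa using hf
      · rw [Pi.single_eq_of_ne hj]; exact isHomogeneous_zero _ _ _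
    · rw [act_mul, h, act_pz_pz, act_x_pz, act_pz_pz]
      unfold perazzo
      have : ∑ j, act ((Pi.single k f : Fin (n + 1) → MvPolynomial (Fin m) K) j) (v j) = act f (v k) := by
        rw [Finset.sum_eq_single k]
        · simp
        · intro j _ hj
          rw [Pi.single_eq_of_ne hj, act_zero']
        · simp
      rw [this]
      simp
  | inr k =>
    refine ⟨X k * f, fun j => X k * g j, ?_, fun j => ?_, fun v w => ?_⟩
    · rw [add_comm (i + 1) 1]; exact (isHomogeneous_X K _).mul hf
    · rw [add_comm i 1]; exact (isHomogeneous_X K _).mul (hg j)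
    · rw [act_mul, h, act_pz_pz, act_pz_pz]
      have := act_up_pz (n := n) (X k) (fun j => act f (v j)) (act f w + ∑ j, act (g j) (v j))
      rw [rename_X] at this
      rw [this]
      congr 1
      · funext j; rw [act_mul]
      · rw [map_add, map_sum, act_mul]
        simp_rw [act_mul]

theorem good_base (a : Fin (n + 1) ⊕ Fin m) (c : K) : Good 0 (C c * X a : MvPolynomial (Fin (n + 1) ⊕ Fin m) K) := by
  cases a with
  | inl k =>
    refine ⟨0, Pi.single k (C c), isHomogeneous_zero _ _ _, fun j => ?_, fun v w => ?_⟩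
    · by_cases hj : j = k
      · subst hj; simpa using isHomogeneous_C _ c
      · rw [Pi.single_eq_of_ne hj]; exact isHomogeneous_zero _ _ _
    · rw [act_mul, act_x_pz, act_C, act_pz_pz]
      unfold perazzo
      have : ∑ j, act ((Pi.single k (C c) : Fin (n + 1) → MvPolynomial (Fin m) K) j) (v j) = c • (v k) := by
        rw [Finset.sum_eq_single k]
        · simp [act_C]
        · intro j _ hj
          rw [Pi.single_eq_of_ne hj, act_zero']
        · simp
      rw [this]
      simp
  | inr k =>
    refine ⟨C c * X k, fun j => 0, ?_, fun j => isHomogeneous_zero _ _ _, fun v w => ?_⟩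
    · simpa using (isHomogeneous_C _ c).mul (isHomogeneous_X K k)
    · have := act_up_pz (n := n) (C c * X k) v w
      rw [map_mul, rename_C, rename_X] at this
      rw [this, act_pz_pz]
      simp [act_zero']

theorem good_monomial (i : ℕ) : ∀ (s : (Fin (n + 1) ⊕ Fin m) →₀ ℕ) (c : K), s.degree = i + 1 →
    Good i (monomial s c) := by
  induction i with
  | zero =>
    intro s c hs
    obtain ⟨a, ha⟩ : ∃ a, s = Finsupp.single a 1 := by
      obtain ⟨a, ha⟩ : ∃ a, s a ≠ 0 := by
        by_contra hcon
        push Not at hcon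
        have : s = 0 := Finsupp.ext hcon
        subst this
        simp at hs
      have hle : Finsupp.single a 1 ≤ s := by
        rw [Finsupp.single_le_iff]; omega
      obtain ⟨s', rfl⟩ := exists_add_of_le hle
      have hs' : s'.degree = 0 := by
        rw [map_add, Finsupp.degree_single] at hs
        omega
      rw [Finsupp.degree_eq_zero_iff] at hs'
      exact ⟨a, by rw [hs', add_zero]⟩
    subst ha
    rw [← C_mul_X_eq_monomial]
    exact good_base a c
  | succ i ih =>
    intro s c hs
    obtain ⟨a, ha⟩ : ∃ a, s a ≠ 0 := by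
      by_contra hcon
      push Not at hcon
      have : s = 0 := Finsupp.ext hcon
      subst this
      simp at hs
    have hle : Finsupp.single a 1 ≤ s := by
      rw [Finsupp.single_le_iff]; omega
    obtain ⟨s', rfl⟩ := exists_add_of_le hle
    have hs' : s'.degree = i + 1 := by
      rw [map_add, Finsupp.degree_single] at hs
      omega
    have := good_step a (ih s' c hs')
    rwa [X, monomial_mul, one_mul] at this

theorem good_hom {i : ℕ} {φ : MvPolynomial (Fin (n + 1) ⊕ Fin m) K} (h : φ.IsHomogeneous (i + 1)) :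
    Good i φ := by
  have key : ∀ S : Finset ((Fin (n + 1) ⊕ Fin m) →₀ ℕ), (∀ s ∈ S, s.degree = i + 1) →
      Good i (∑ s ∈ S, monomial s (coeff s φ)) := by
    classical
    intro S
    induction S using Finset.induction_on with
    | empty => intro _; rw [Finset.sum_empty]; exact good_zero
    | insert s S hs ih =>
      intro hS
      rw [Finset.sum_insert hs]
      exact good_add (good_monomial i s _ (hS s (by simp))) (ih fun t ht => hS t (by simp [ht]))
  have := key φ.support (fun s hs => by
    have := h (mem_support_iff.1 hs)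
    rw [Finsupp.degree_eq_weight_one]
    exact this)
  rwa [← as_sum] at this

end

theorem pPER : S_PER := by
  intro K _ _ n m d i p G hp hG
  constructor
  · rintro ⟨L, hL, hinj⟩
    obtain ⟨l, a, hl, ha, hLa⟩ := good_hom (i := 0) (by simpa using hL)
    refine ⟨l, by simpa using hl, ∑ j, coeff 0 (a j) • p j,
      Submodule.sum_mem _ fun j _ => Submodule.smul_mem _ _ (Submodule.subset_span ⟨j, rfl⟩), ?_⟩
    intro f g hf hg h1 h2
    have h3 := hinj (perazzo g f) (pz_hom hf hg) (by
      rw [act_mul, act_pz_pz, hLa, act_pz_pz]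
      refine pz_of_zero (fun j => ?_) ?_
      · rw [← act_mul]; exact h1 j
      · have : ∑ j, act (a j) (act f (p j)) = act f (∑ j, coeff 0 (a j) • p j) := by
          rw [map_sum]
          refine Finset.sum_congr rfl fun j _ => ?_
          have hc : a j = C (coeff 0 (a j)) := by
            have := totalDegree_eq_zero_iff_eq_C.1 ((ha j).totalDegree_le.antisymm (Nat.zero_le _))
            exact this
          rw [hc, act_C, coeff_C, if_pos rfl, map_smul]
        rw [this]
        exact h2)
    rw [act_pz_pz] at h3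
    exact pz_zero h3
  · rintro ⟨l, hl, q, hq, h⟩
    obtain ⟨c, rfl⟩ := (Submodule.mem_span_range_iff_exists_fun K).1 hq
    refine ⟨perazzo (fun j => C (c j)) l, by simpa using pz_hom (i := 0) (by simpa using hl) (fun j => isHomogeneous_C _ _), ?_⟩
    intro φ hφ h0
    obtain ⟨f, g, hf, hg, hfg⟩ := good_hom hφ
    rw [act_mul, hfg, act_pz_pz, act_pz_pz] at h0
    obtain ⟨h1, h2⟩ := pz_zero h0
    have h3 := h f g hf hg (fun j => by rw [act_mul]; exact h1 j) (by
      rw [← h2]
      congr 1
      rw [map_sum]
      refine Finset.sum_congr rfl fun j _ => ?_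
      rw [act_C, map_smul])
    rw [hfg, act_pz_pz]
    exact pz_of_zero h3.1 h3.2

end Pool.Agent.T2H37.PZ
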