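import Pool.Agent.T2H37.PZ.P_PER

set_option autoImplicit false

namespace Pool.Agent.T2H37.PZ

open MvPolynomial

section
variable {K : Type} [Field K] [CharZero K] {m : ℕ}

/-- the linear form with coefficients `a` -/
noncomputable def lin (a : Fin m → K) : MvPolynomial (Fin m) K := ∑ k, C (a k) * X k

theorem lin_hom (a : Fin m → K) : (lin a).IsHomogeneous 1 := by
  refine IsHomogeneous.sum _ _ _ fun k _ => ?_
  simpa using (isHomogeneous_C _ (a k)).mul (isHomogeneous_X K k)

theorem eval_lin (a b : Fin m → K) : eval b (lin a) = ∑ k, a k * b k := by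
  unfold lin
  simp

theorem pderiv_lin_pow (a : Fin m → K) (k : Fin m) (N : ℕ) :
    pderiv k (lin a ^ (N + 1)) = C (((N + 1 : ℕ) : K) * a k) * lin a ^ N := by
  have h : pderiv k (lin a) = C (a k) := by
    unfold lin
    rw [map_sum, Finset.sum_eq_single k]
    · rw [Derivation.leibniz, pderiv_X_self, pderiv_C]; simp
    · intro j _ hj
      rw [Derivation.leibniz, pderiv_X_of_ne hj, pderiv_C]; simp
    · simp
  rw [Derivation.leibniz_pow, h, Nat.add_sub_cancel, C_mul, map_natCast]
  simp only [nsmul_eq_mul, smul_eq_mul]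
  ring

theorem act_monomial_lin (a : Fin m → K) (N : ℕ) (r : ℕ) : r ≤ N → ∀ (s : Fin m →₀ ℕ) (c : K), s.degree = r →
    act (monomial s c) (lin a ^ N) = C ((N.descFactorial r : K) * eval a (monomial s c)) * lin a ^ (N - r) := by
  induction r with
  | zero =>
    intro _ s c hs
    rw [Finsupp.degree_eq_zero_iff] at hs
    subst hs
    have : (monomial 0 c : MvPolynomial (Fin m) K) = C c := rfl
    rw [this, act_C, eval_C, smul_eq_C_mul]
    simp
  | succ r ih =>
    intro hr s c hs
    obtain ⟨k, hk⟩ : ∃ k, s k ≠ 0 := by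
      by_contra hcon
      push Not at hcon
      have : s = 0 := Finsupp.ext hcon
      subst this
      simp at hs
    have hle : Finsupp.single k 1 ≤ s := by
      rw [Finsupp.single_le_iff]; omega
    obtain ⟨s', rfl⟩ := exists_add_of_le hle
    have hs' : s'.degree = r := by
      rw [map_add, Finsupp.degree_single] at hs
      omega
    have h1 : (monomial (Finsupp.single k 1 + s') c : MvPolynomial (Fin m) K) = X k * monomial s' c := by
      rw [X, monomial_mul, one_mul]
    rw [h1, act_mul, ih (by omega) s' c hs', act_X, Derivation.leibniz, pderiv_C, smul_zero, add_zero]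
    obtain ⟨t, ht⟩ : ∃ t, N - r = t + 1 := ⟨N - r - 1, by omega⟩
    rw [ht, pderiv_lin_pow, show N - (r + 1) = t by omega, Nat.descFactorial_succ, ht, map_mul (eval a), eval_X]
    simp only [smul_eq_mul, C_mul, Nat.cast_mul]
    ring

theorem act_lin_pow (a : Fin m → K) {N r : ℕ} (hr : r ≤ N) {g : MvPolynomial (Fin m) K} (hg : g.IsHomogeneous r) :
    act g (lin a ^ N) = C ((N.descFactorial r : K) * eval a g) * lin a ^ (N - r) := by
  conv_lhs => rw [g.as_sum]
  conv_rhs => rw [g.as_sum]
  rw [map_sum, LinearMap.sum_apply, map_sum (eval a), Finset.mul_sum, map_sum C, Finset.sum_mul]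
  refine Finset.sum_congr rfl fun s hs => ?_
  refine act_monomial_lin a N r hr s _ ?_
  have := hg (mem_support_iff.1 hs)
  rw [Finsupp.degree_eq_weight_one]
  exact this

theorem desc_ne {N r : ℕ} (hr : r ≤ N) : ((N.descFactorial r : ℕ) : K) ≠ 0 := by
  have : N.descFactorial r ≠ 0 := by
    rw [Ne, Nat.descFactorial_eq_zero_iff_lt]
    omega
  exact_mod_cast this

/-- all partial derivatives of a form of positive degree vanish only for the zero form -/
theorem eq_zero_of_pderiv {h : MvPolynomial (Fin m) K} {r : ℕ} (hh : h.IsHomogeneous (r + 1))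
    (h0 : ∀ k, pderiv k h = 0) : h = 0 := by
  have h1 := hh.sum_X_mul_pderiv
  simp only [h0, mul_zero, Finset.sum_const_zero] at h1
  have h2 : ((r + 1 : ℕ) : MvPolynomial (Fin m) K) * h = 0 := by
    rw [← nsmul_eq_mul]; exact h1.symm
  rcases mul_eq_zero.1 h2 with h3 | h3
  · exfalso
    have : ((r + 1 : ℕ) : MvPolynomial (Fin m) K) = C ((r + 1 : ℕ) : K) := by simp
    rw [this, C_eq_zero] at h3
    exact Nat.cast_ne_zero.2 (Nat.succ_ne_zero r) h3
  · exact h3

theorem exists_lin_ne {ι : Type} [Fintype ι] (a : ι → Fin m → K) (ha : ∀ j, a j ≠ 0) :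
    ∃ t : Fin m → K, ∀ j, eval (a j) (lin t) ≠ 0 := by
  by_contra hcon
  push Not at hcon
  have h1 : ∏ j, lin (a j) = (0 : MvPolynomial (Fin m) K) := by
    refine MvPolynomial.funext fun t => ?_
    obtain ⟨j, hj⟩ := hcon t
    rw [map_prod, map_zero]
    refine Finset.prod_eq_zero (Finset.mem_univ j) ?_
    rw [eval_lin] at hj ⊢
    rw [← hj]
    exact Finset.sum_congr rfl fun k _ => mul_comm _ _
  obtain ⟨j, -, hj⟩ := Finset.prod_eq_zero_iff.1 h1
  apply ha j
  funext k
  have := congrArg (fun F : MvPolynomial (Fin m) K => eval (Pi.single k 1) F) hj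
  simp only [eval_lin, map_zero] at this
  rwa [Finset.sum_eq_single k (fun b _ hb => by rw [Pi.single_eq_of_ne hb, mul_zero]) (by simp),
    Pi.single_eq_same, mul_one] at this

end

/-- forms whose `p_j` are powers of linear forms -/
theorem powers (hMID : S_MID) (K : Type) [Field K] [CharZero K] (n m d : ℕ) (hd : 3 ≤ d)
    (a : Fin (n + 1) → Fin m → K) (G : MvPolynomial (Fin m) K) (hGh : G.IsHomogeneous d)
    (hLI : LinearIndependent K fun j => lin (a j) ^ (d - 1))
    (hG : ∀ f : MvPolynomial (Fin m) K, f.IsHomogeneous ((d - 1) / 2) → (∀ j, eval (a j) f = 0) →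
      act f G ∈ Submodule.span K (Set.range fun j => lin (a j) ^ (d / 2 + 1))) :
    WLP (perazzo (fun j => lin (a j) ^ (d - 1)) G) ↔ LinearIndependent K fun j => lin (a j) ^ (d / 2) := by
  have hp : ∀ j, (lin (a j) ^ (d - 1)).IsHomogeneous (d - 1) := fun j => by
    simpa using (lin_hom (a j)).pow (d - 1)
  have hF : (perazzo (fun j => lin (a j) ^ (d - 1)) G).IsHomogeneous d := by
    obtain ⟨k, rfl⟩ : ∃ k, d = k + 1 := ⟨d - 1, by omega⟩
    exact pz_hom hGh (by simpa using hp)
  rw [hMID K _ _ d (by omega) hF]
  obtain ⟨i, hi⟩ : ∃ i, (d - 1) / 2 = i + 1 := ⟨(d - 1) / 2 - 1, by omega⟩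
  rw [hi, pPER K n m d i _ G hp hGh]
  rw [hi] at hG
  obtain ⟨e, he⟩ : ∃ e, d / 2 = e := ⟨_, rfl⟩
  rw [he]
  rw [he] at hG
  have hde : d - 1 = i + (e + 1) := by omega
  have hLne : ∀ j, lin (a j) ≠ 0 := by
    intro j h0
    have := hLI.ne_zero j
    rw [h0, zero_pow (by omega)] at this
    exact this rfl
  have hane : ∀ j, a j ≠ 0 := by
    intro j h0
    apply hLne j
    rw [h0]
    unfold lin
    simp
  constructor
  · rintro ⟨l, hl, q, -, h⟩
    -- injectivity on the span of the powers of degree `e + 1`
    have hinj : ∀ c : Fin (n + 1) → K, ∑ j, (c j * eval (a j) l) • lin (a j) ^ e = 0 →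
        ∑ j, c j • lin (a j) ^ (e + 1) = 0 := by
      intro c hc
      choose k hk using fun j => Function.ne_iff.1 (hane j)
      have hgj : ∀ j, act (C (c j / ((d - 1).descFactorial i * a j (k j) ^ i)) * X (k j) ^ i)
          (lin (a j) ^ (d - 1)) = c j • lin (a j) ^ (e + 1) := by
        intro j
        have hgh : (C (c j / ((d - 1).descFactorial i * a j (k j) ^ i)) * X (k j) ^ i :
            MvPolynomial (Fin m) K).IsHomogeneous i := by
          have := (isHomogeneous_C (Fin m) (c j / ((d - 1).descFactorial i * a j (k j) ^ i))).mul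
            ((isHomogeneous_X K (k j)).pow i)
          simpa using this
        rw [act_lin_pow (a j) (by omega) hgh, show d - 1 - i = e + 1 by omega, smul_eq_C_mul]
        congr 2
        rw [map_mul, eval_C, map_pow, eval_X]
        have h1 : (((d - 1).descFactorial i : ℕ) : K) ≠ 0 := desc_ne (by omega)
        have h2 : a j (k j) ^ i ≠ 0 := pow_ne_zero _ (by simpa using hk j)
        field_simp
      have h1 := h 0 (fun j => C (c j / ((d - 1).descFactorial i * a j (k j) ^ i)) * X (k j) ^ i)
        (isHomogeneous_zero _ _ _) (fun j => by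
          have := (isHomogeneous_C (Fin m) (c j / ((d - 1).descFactorial i * a j (k j) ^ i))).mul
            ((isHomogeneous_X K (k j)).pow i)
          simpa using this) (fun j => by rw [mul_zero, act_zero']) (by
          rw [act_zero', act_zero', zero_add, add_zero]
          simp_rw [hgj]
          rw [map_sum]
          have h2 : ∀ j, act l (c j • lin (a j) ^ (e + 1)) =
              ((e + 1 : ℕ) : K) • ((c j * eval (a j) l) • lin (a j) ^ e) := by
            intro j
            rw [map_smul, act_lin_pow (a j) (by omega) hl, Nat.descFactorial_one, Nat.add_sub_cancel,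
              smul_eq_C_mul, smul_eq_C_mul, smul_eq_C_mul]
            simp only [C_mul]
            ring
          simp_rw [h2]
          rw [← Finset.smul_sum, hc, smul_zero])
      have h3 := h1.2
      rw [act_zero', zero_add] at h3
      simp_rw [hgj] at h3
      exact h3
    have hlne : ∀ j, eval (a j) l ≠ 0 := by
      intro j h0
      have h1 := hinj (Pi.single j 1) (by
        refine Finset.sum_eq_zero fun j' _ => ?_
        by_cases hj : j' = j
        · subst hj; rw [h0, mul_zero, zero_smul]
        · rw [Pi.single_eq_of_ne hj, zero_mul, zero_smul])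
      rw [Finset.sum_eq_single j (fun j' _ hj => by rw [Pi.single_eq_of_ne hj, zero_smul]) (by simp),
        Pi.single_eq_same, one_smul] at h1
      exact pow_ne_zero _ (hLne j) h1
    have hstep : ∀ t : ℕ, ∀ c : Fin (n + 1) → K, ∑ j, c j • lin (a j) ^ (e + t) = 0 →
        ∑ j, (c j / eval (a j) l) • lin (a j) ^ (e + t + 1) = 0 := by
      intro t
      induction t with
      | zero =>
        intro c hc
        refine hinj _ ?_
        rw [add_zero] at hc
        rw [← hc]
        refine Finset.sum_congr rfl fun j _ => ?_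
        rw [div_mul_cancel₀ _ (hlne j)]
      | succ t ih =>
        intro c hc
        refine eq_zero_of_pderiv (r := e + t + 1) ?_ ?_
        · refine IsHomogeneous.sum _ _ _ fun j _ => ?_
          rw [smul_eq_C_mul]
          have := (isHomogeneous_C (Fin m) (c j / eval (a j) l)).mul ((lin_hom (a j)).pow (e + (t + 1) + 1))
          simpa [add_assoc] using this
        · intro k
          have h1 : ∑ j, (c j * a j k) • lin (a j) ^ (e + t) = 0 := by
            have h2 := congrArg (pderiv k) hc
            rw [map_zero, map_sum] at h2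
            have h3 : ∀ j, pderiv k (c j • lin (a j) ^ (e + (t + 1))) =
                ((e + t + 1 : ℕ) : K) • ((c j * a j k) • lin (a j) ^ (e + t)) := by
              intro j
              rw [Derivation.map_smul, show e + (t + 1) = (e + t) + 1 by ring, pderiv_lin_pow, smul_eq_C_mul, smul_eq_C_mul,
                smul_eq_C_mul]
              simp only [C_mul]
              ring
            simp_rw [h3] at h2
            rw [← Finset.smul_sum, smul_eq_zero] at h2
            exact h2.resolve_left (Nat.cast_ne_zero.2 (Nat.succ_ne_zero _))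
          have h4 := ih _ h1
          rw [map_sum]
          have h5 : ∀ j, pderiv k ((c j / eval (a j) l) • lin (a j) ^ (e + (t + 1) + 1)) =
              ((e + t + 2 : ℕ) : K) • ((c j * a j k / eval (a j) l) • lin (a j) ^ (e + t + 1)) := by
            intro j
            rw [Derivation.map_smul, show e + (t + 1) + 1 = (e + t + 1) + 1 by ring, pderiv_lin_pow, smul_eq_C_mul,
              smul_eq_C_mul, smul_eq_C_mul]
            rw [show c j * a j k / eval (a j) l = (c j / eval (a j) l) * a j k by ring]
            simp only [C_mul]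
            ring
          simp_rw [h5]
          rw [← Finset.smul_sum, h4, smul_zero]
    have hiter : ∀ t : ℕ, ∀ c : Fin (n + 1) → K, ∑ j, c j • lin (a j) ^ e = 0 →
        ∑ j, (c j / eval (a j) l ^ t) • lin (a j) ^ (e + t) = 0 := by
      intro t
      induction t with
      | zero => intro c hc; simpa using hc
      | succ t ih =>
        intro c hc
        have := hstep t _ (ih c hc)
        rw [← this]
        refine Finset.sum_congr rfl fun j _ => ?_
        rw [div_div, ← pow_succ, add_assoc]
    rw [Fintype.linearIndependent_iff]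
    intro c hc j
    have h1 := hiter (i + 1) c hc
    rw [show e + (i + 1) = d - 1 by omega] at h1
    have h2 := Fintype.linearIndependent_iff.1 hLI _ h1 j
    exact (div_eq_zero_iff.1 h2).resolve_right (pow_ne_zero _ (hlne j))
  · intro hLIe
    obtain ⟨t, ht⟩ := exists_lin_ne a hane
    refine ⟨lin t, lin_hom t, 0, Submodule.zero_mem _, ?_⟩
    intro f g hf hg hlf h0
    have hfa : ∀ j, eval (a j) f = 0 := by
      intro j
      have h1 := hlf j
      have hh : (lin t * f).IsHomogeneous (1 + (i + 1)) := (lin_hom t).mul hf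
      rw [act_lin_pow (a j) (by omega) hh, mul_eq_zero] at h1
      rcases h1 with h1 | h1
      · rw [C_eq_zero, mul_eq_zero] at h1
        rcases h1 with h1 | h1
        · exact absurd h1 (desc_ne (by omega))
        · rw [map_mul, mul_eq_zero] at h1
          exact h1.resolve_left (ht j)
      · exact absurd h1 (pow_ne_zero _ (hLne j))
    refine ⟨fun j => by rw [act_lin_pow (a j) (by omega) hf, hfa j]; simp, ?_⟩
    obtain ⟨c, hc⟩ := (Submodule.mem_span_range_iff_exists_fun K).1 (hG f hf hfa)
    have h1 : act f G + ∑ j, act (g j) (lin (a j) ^ (d - 1)) =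
        ∑ j, (c j + (d - 1).descFactorial i * eval (a j) (g j)) • lin (a j) ^ (e + 1) := by
      rw [← hc, ← Finset.sum_add_distrib]
      refine Finset.sum_congr rfl fun j _ => ?_
      rw [act_lin_pow (a j) (by omega) (hg j), show d - 1 - i = e + 1 by omega, add_smul, smul_eq_C_mul,
        smul_eq_C_mul]
    rw [h1, map_zero, add_zero, map_sum] at h0
    rw [h1]
    have h2 : ∀ j, act (lin t) ((c j + (d - 1).descFactorial i * eval (a j) (g j)) • lin (a j) ^ (e + 1)) =
        (((e + 1 : ℕ) : K) * ((c j + (d - 1).descFactorial i * eval (a j) (g j)) * eval (a j) (lin t))) •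
          lin (a j) ^ e := by
      intro j
      rw [map_smul, act_lin_pow (a j) (by omega) (lin_hom t), Nat.descFactorial_one, Nat.add_sub_cancel,
        smul_eq_C_mul, smul_eq_C_mul]
      simp only [C_mul]
      ring
    simp_rw [h2] at h0
    refine Finset.sum_eq_zero fun j _ => ?_
    have h3 := Fintype.linearIndependent_iff.1 hLIe _ h0 j
    rw [mul_eq_zero, mul_eq_zero] at h3
    rcases h3 with h3 | h3 | h3
    · exact absurd h3 (Nat.cast_ne_zero.2 (Nat.succ_ne_zero _))
    · rw [h3, zero_smul]
    · exact absurd h3 (ht j)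

end Pool.Agent.T2H37.PZ
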