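import Mathlib

/-!
# Perazzo algebras: definitions and statements of the packages

`K` a field of characteristic zero, `act g F` = the polynomial `g` in the partial derivatives applied to `F`.
-/

set_option autoImplicit false

namespace Pool.Agent.T2H37.PZ

open MvPolynomial

section
variable {K : Type} [Field K] {σ : Type}

/-- the partial derivative as a linear map -/
noncomputable def pd (i : σ) : Module.End K (MvPolynomial σ K) :=
  (pderiv i : Derivation K (MvPolynomial σ K) (MvPolynomial σ K)).toLinearMap

theorem pd_comm (i j : σ) : (pd i : Module.End K (MvPolynomial σ K)) * pd j = pd j * pd i := by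
  classical
  have h : ⁅(pderiv i : Derivation K (MvPolynomial σ K) (MvPolynomial σ K)),
      (pderiv j : Derivation K (MvPolynomial σ K) (MvPolynomial σ K))⁆ = 0 := by
    apply MvPolynomial.derivation_ext
    intro k
    rw [Derivation.commutator_apply]
    simp only [pderiv_X, Derivation.coe_zero, Pi.zero_apply]
    simp only [Pi.single_apply]
    split_ifs <;> simp
  apply LinearMap.ext
  intro F
  have := congrArg (fun D : Derivation K (MvPolynomial σ K) (MvPolynomial σ K) => D F) h
  simp only [Derivation.commutator_apply, Derivation.coe_zero, Pi.zero_apply] at this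
  exact sub_eq_zero.1 this

/-- the commutative algebra generated by the partial derivatives -/
@[reducible] noncomputable def commRingDer :
    CommRing (Algebra.adjoin K (Set.range (pd : σ → Module.End K (MvPolynomial σ K)))) :=
  Algebra.adjoinCommRingOfComm K (by
    rintro _ ⟨i, rfl⟩ _ ⟨j, rfl⟩
    exact pd_comm i j)

/-- `act g F`: the polynomial `g` in the partial derivatives, applied to `F` -/
noncomputable def act : MvPolynomial σ K →ₐ[K] Module.End K (MvPolynomial σ K) :=
  letI := commRingDer (K := K) (σ := σ)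
  (Subalgebra.val _).comp
    (aeval fun i : σ => (⟨pd i, Algebra.subset_adjoin ⟨i, rfl⟩⟩ :
      Algebra.adjoin K (Set.range (pd : σ → Module.End K (MvPolynomial σ K)))))

theorem act_X (i : σ) (F : MvPolynomial σ K) : act (X i) F = pderiv i F := by
  let _ := commRingDer (K := K) (σ := σ)
  unfold act
  simp only [AlgHom.comp_apply]
  rw [aeval_X]
  rfl

theorem act_mul (g h F : MvPolynomial σ K) : act (g * h) F = act g (act h F) := by
  rw [map_mul]
  rfl

/-- the annihilator of `F` -/
noncomputable def ann (F : MvPolynomial σ K) : Ideal (MvPolynomial σ K) where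
  carrier := {g | act g F = 0}
  zero_mem' := by simp
  add_mem' := by
    intro a b ha hb
    simp only [Set.mem_ofPred_eq, map_add, LinearMap.add_apply] at *
    rw [ha, hb, add_zero]
  smul_mem' := by
    intro c a ha
    simp only [Set.mem_ofPred_eq, smul_eq_mul] at *
    rw [act_mul, ha, map_zero]

theorem mem_ann {F g : MvPolynomial σ K} : g ∈ ann F ↔ act g F = 0 := Iff.rfl

/-- the part of degree `i` of the algebra `A_F = R / Ann F` -/
noncomputable def piece (F : MvPolynomial σ K) (i : ℕ) : Submodule K (MvPolynomial σ K ⧸ ann F) :=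
  (homogeneousSubmodule σ K i).map (Ideal.Quotient.mkₐ K (ann F)).toLinearMap

/-- the weak Lefschetz property of the algebra `A_F` -/
def WLP (F : MvPolynomial σ K) : Prop :=
  ∃ l ∈ piece F 1, ∀ i, (∀ x ∈ piece F i, l * x = 0 → x = 0) ∨ (∀ y ∈ piece F (i + 1), ∃ x ∈ piece F i, l * x = y)

end

/-- the Perazzo form `∑ X_j p_j + G` -/
noncomputable def perazzo {K : Type} [Field K] {n m : ℕ} (p : Fin (n + 1) → MvPolynomial (Fin m) K)
    (G : MvPolynomial (Fin m) K) : MvPolynomial (Fin (n + 1) ⊕ Fin m) K :=
  ∑ j, X (Sum.inl j) * rename Sum.inr (p j) + rename Sum.inr G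

/-- HOM: derivatives of homogeneous polynomials -/
def S_HOM : Prop := ∀ (K : Type) [Field K] [CharZero K] (σ : Type) [Fintype σ] (g F : MvPolynomial σ K) (i d : ℕ),
  g.IsHomogeneous i → F.IsHomogeneous d → (i ≤ d → (act g F).IsHomogeneous (d - i)) ∧ (d < i → act g F = 0)

/-- NON: the pairing is nondegenerate -/
def S_NON : Prop := ∀ (K : Type) [Field K] [CharZero K] (σ : Type) [Fintype σ] (F : MvPolynomial σ K) (e : ℕ),
  F.IsHomogeneous e → (∀ g : MvPolynomial σ K, g.IsHomogeneous e → act g F = 0) → F = 0

/-- REP: linear functionals are represented by differential operators: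
`f = ∑_s (φ(X^s) / s!) u^s` over the exponents `s` of degree `e`. -/
def S_REP : Prop := ∀ (K : Type) [Field K] [CharZero K] (σ : Type) [Fintype σ] (φ : MvPolynomial σ K →ₗ[K] K) (e : ℕ),
  ∃ f : MvPolynomial σ K, f.IsHomogeneous e ∧ ∀ v : MvPolynomial σ K, v.IsHomogeneous e → act f v = C (φ v)

/-- MID: the weak Lefschetz property is the injectivity of one map in the middle degree.
Proof. Put `i0 = (d - 1) / 2`. Unfold `WLP` to statements about homogeneous representatives.
(1) inj at `i0` ⟹ inj at `i ≤ i0`: if `act (L*φ) F = 0`, then for all `χ` homogeneous of degree `i0 - i`,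
`act (L*(χ*φ)) F = 0`, so `act (χ*φ) F = 0`; then `act φ F`, homogeneous of degree `d - i ≥ i0 - i`, is killed by all
operators of degree `i0 - i`, hence by all monomials of degree `d - i`, so it is `0` by NON.
(2) inj at `i` ⟹ surj at `d - 1 - i` (`i ≤ d - 1`): given `ψ` of degree `d - i`, the linear map
`T : act φ F ↦ act (L*φ) F` is well defined and injective on `{act φ F : φ of degree i}`; the functional
`act φ F ↦ coeff 0 (act (ψ*φ) F)` factors through `T`, extend it to a functional on all polynomials and represent it on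
degree `d - i - 1` by `χ` of degree `d - 1 - i` (REP): `coeff 0 (act (ψ*φ) F) = coeff 0 (act (χ*L*φ) F)` for all `φ` of
degree `i`, so `act (ψ - L*χ) F`, homogeneous of degree `i`, is killed by all `φ` of degree `i`, so it is `0` by NON.
(3) surj at `i` ⟹ surj at `j ≥ i` (a form of degree `j + 1` is a sum of products of forms of degree `j - i` and forms of
degree `i + 1`; or by induction on `j`, multiplying by variables).
(4) surj at `d - 1 - i` ⟹ inj at `i`: if `act (L*φ) F = 0`, then every `ψ` of degree `d - i` is `L*χ` modulo `ann F`, so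
`act (ψ*φ) F = act (χ*(L*φ)) F = 0`; by NON `act φ F = 0`.
(5) surj at all `i ≥ d` since all forms of degree `> d` kill `F` (HOM). -/
def S_MID : Prop := ∀ (K : Type) [Field K] [CharZero K] (σ : Type) [Fintype σ] (F : MvPolynomial σ K) (d : ℕ),
  1 ≤ d → F.IsHomogeneous d → (WLP F ↔ ∃ L : MvPolynomial σ K, L.IsHomogeneous 1 ∧
    ∀ φ : MvPolynomial σ K, φ.IsHomogeneous ((d - 1) / 2) → act (L * φ) F = 0 → act φ F = 0)

/-- DA: surjectivity of `l` from `B_(e)` to `B_(e+1)` is injectivity of `l` on the inverse system. Here `p_j` has degree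
`e + 1 + c`, `B = K[u]/Ann(p_0, …, p_n)`.
Proof. (→) Let `h = ∑ act (g j) (p j)` with `act l h = 0`. Every `w` of degree `e + 1` is `l*f + a`, `a` killing all
`p_j`, so `act w h = act f (act l h) + ∑ act (g j) (act a (p j)) = 0`, and `h = 0` by NON.
(←) Given `w` of degree `e + 1`. The set `M` of the `h = ∑ act (g j) (p j)`, `g_j` of degree `c`, is a submodule of the
forms of degree `e + 1`, `act l` is injective on it, so the functional `h ↦ coeff 0 (act w h)` on `M` factors through
`act l`; extend it to a functional on all polynomials and represent it by `f` of degree `e` (REP):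
`coeff 0 (act w h) = coeff 0 (act f (act l h))` for `h ∈ M`. Then `act (w - l*f) (p j)`, of degree `c`, is killed by all
forms of degree `c`, so it is zero (NON). -/
def S_DA : Prop := ∀ (K : Type) [Field K] [CharZero K] (n m e c : ℕ) (p : Fin (n + 1) → MvPolynomial (Fin m) K)
  (l : MvPolynomial (Fin m) K), (∀ j, (p j).IsHomogeneous (e + 1 + c)) → l.IsHomogeneous 1 →
  ((∀ w : MvPolynomial (Fin m) K, w.IsHomogeneous (e + 1) →
      ∃ f : MvPolynomial (Fin m) K, f.IsHomogeneous e ∧ ∀ j, act (w - l * f) (p j) = 0) ↔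
    ∀ g : Fin (n + 1) → MvPolynomial (Fin m) K, (∀ j, (g j).IsHomogeneous c) →
      act l (∑ j, act (g j) (p j)) = 0 → ∑ j, act (g j) (p j) = 0)

/-- DB: double annihilator. Here `p_j` has degree `e + 1 + c`, and `v` is a form of degree `e`.
`v` is `l` times an element of `M = {∑ act (g j) (p j) : g_j of degree c}` if and only if all `g` of degree `e` for which
`l*g` kills all `p_j` kill `v`.
Proof. (→) `act g (act l (act (g_j) (p_j))) = act (g_j) (act (l*g) (p_j)) = 0`. (←) If `v` is not in the submodule
`N = act l (M)`, there is a functional which vanishes on `N` and not at `v`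
(`Submodule.exists_le_ker_of_notMem` or similar); represent it by `g` of degree `e` (REP); then for all `g'` of degree
`c` and all `j`, `act g' (act (l*g) (p j)) = act g (act l (act g' (p j))) = 0`, so `act (l*g) (p j) = 0` by NON. So `g`
kills `v`, a contradiction. -/
def S_DB : Prop := ∀ (K : Type) [Field K] [CharZero K] (n m e c : ℕ) (p : Fin (n + 1) → MvPolynomial (Fin m) K)
  (l v : MvPolynomial (Fin m) K), (∀ j, (p j).IsHomogeneous (e + 1 + c)) → l.IsHomogeneous 1 → v.IsHomogeneous e →
  ((∃ g : Fin (n + 1) → MvPolynomial (Fin m) K, (∀ j, (g j).IsHomogeneous c) ∧ act l (∑ j, act (g j) (p j)) = v) ↔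
    ∀ g : MvPolynomial (Fin m) K, g.IsHomogeneous e → (∀ j, act (l * g) (p j) = 0) → act g v = 0)

/-- PER: injectivity of the multiplication by a linear form on the part of degree `i + 1` of the algebra of the Perazzo
form, in terms of `p` and `G`. -/
def S_PER : Prop := ∀ (K : Type) [Field K] [CharZero K] (n m d i : ℕ) (p : Fin (n + 1) → MvPolynomial (Fin m) K)
  (G : MvPolynomial (Fin m) K), (∀ j, (p j).IsHomogeneous (d - 1)) → G.IsHomogeneous d →
  ((∃ L : MvPolynomial (Fin (n + 1) ⊕ Fin m) K, L.IsHomogeneous 1 ∧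
    ∀ φ : MvPolynomial (Fin (n + 1) ⊕ Fin m) K, φ.IsHomogeneous (i + 1) →
      act (L * φ) (perazzo p G) = 0 → act φ (perazzo p G) = 0) ↔
    ∃ l : MvPolynomial (Fin m) K, l.IsHomogeneous 1 ∧ ∃ q ∈ Submodule.span K (Set.range p),
      ∀ (f : MvPolynomial (Fin m) K) (g : Fin (n + 1) → MvPolynomial (Fin m) K), f.IsHomogeneous (i + 1) →
        (∀ j, (g j).IsHomogeneous i) → (∀ j, act (l * f) (p j) = 0) →
        act l (act f G + ∑ j, act (g j) (p j)) + act f q = 0 →
        (∀ j, act f (p j) = 0) ∧ act f G + ∑ j, act (g j) (p j) = 0)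

/-- the criterion -/
def S_FIN : Prop := ∀ (K : Type) [Field K] [CharZero K] (n m d : ℕ), 3 ≤ d →
  ∀ (p : Fin (n + 1) → MvPolynomial (Fin m) K) (G : MvPolynomial (Fin m) K),
  (∀ j, (p j).IsHomogeneous (d - 1)) → G.IsHomogeneous d →
  (WLP (perazzo p G) ↔
    ∃ l : MvPolynomial (Fin m) K, l.IsHomogeneous 1 ∧ ∃ q ∈ Submodule.span K (Set.range p),
      (∀ w : MvPolynomial (Fin m) K, w.IsHomogeneous (d - (d - 1) / 2) →
        ∃ f : MvPolynomial (Fin m) K, f.IsHomogeneous (d - 1 - (d - 1) / 2) ∧ ∀ j, w - l * f ∈ ann (p j)) ∧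
      ∀ f : MvPolynomial (Fin m) K, f.IsHomogeneous ((d - 1) / 2) → (∀ j, l * f ∈ ann (p j)) →
        (∀ g : MvPolynomial (Fin m) K, g.IsHomogeneous (d - 1 - (d - 1) / 2) → (∀ j, l * g ∈ ann (p j)) →
          act (f * g) q + act (l * f * g) G = 0) →
        (∀ j, f ∈ ann (p j)) ∧
          ∃ g : Fin (n + 1) → MvPolynomial (Fin m) K, (∀ j, (g j).IsHomogeneous ((d - 1) / 2 - 1)) ∧
            act f G = ∑ j, act (g j) (p j))

end Pool.Agent.T2H37.PZ
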