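import Pool.Agent.T2H37.PZ.Pow

set_option autoImplicit false

namespace Pool.Agent.T2H37.PZ

open MvPolynomial

/-- DIM: there are at most `choose (m - 1 + e) (m - 1)` linearly independent forms of degree `e` in `m` variables.
(`m ≥ 1`.) Proof: the forms of degree `e` are spanned by the monomials, whose number is
`choose (m + e - 1) e` (`Sym.card_sym_eq_choose`, `Finset.card_finsuppAntidiag` or similar). -/
def S_DIM : Prop := ∀ (K : Type) [Field K] [CharZero K] (n m e : ℕ) (v : Fin (n + 1) → MvPolynomial (Fin (m + 1)) K),
  (∀ j, (v j).IsHomogeneous e) → LinearIndependent K v → n + 1 ≤ (m + e).choose m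

/-- PTS: the powers of linear forms span all forms, so there are `choose (m + e) m` linearly independent ones.
Proof. If the span of the `lin a ^ e` is not all of the forms of degree `e`, there is a functional `φ` which vanishes on the
span and not at some form `v` of degree `e`; represent `φ` by `f` of degree `e` (REP); `act f (lin a ^ e) = C (e! * f(a))`
(`act_lin_pow`), so `f(a) = 0` for all `a`, `f = 0` (`MvPolynomial.funext`), `φ v = 0`, a contradiction. So the span has
dimension `choose (m + e) m` and it contains `n + 1` linearly independent powers (`exists_linearIndependent` on the set of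
powers, whose span has this finrank). -/
def S_PTS : Prop := ∀ (K : Type) [Field K] [CharZero K] (n m e : ℕ), n + 1 ≤ (m + e).choose m →
  ∃ a : Fin (n + 1) → Fin (m + 1) → K, LinearIndependent K fun j => lin (a j) ^ e

end Pool.Agent.T2H37.PZ
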